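import Pool.Agent.Helper23_Refl.StmtC5

/-!
REFL, module RESNAP: children which are not canonical or not primitive.
-/

namespace Pool.Agent.Refl.H91R

open Matrix

theorem fc_eq {α : Type} (n : ℕ) (f : ℕ → α) : K.fc n f = f n := by
  cases n <;> rfl

theorem fcI_eq {α : Type} (x : ℤ) (f : ℤ → α) : K.fcI x f = f x := by
  cases x with
  | ofNat n => exact fc_eq n (fun n => f (Int.ofNat n))
  | negSucc n => exact fc_eq n (fun n => f (Int.negSucc n))

theorem fc4_eq {α : Type} (v : K.I4) (f : K.I4 → α) : K.fc4 v f = f v := by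
  unfold K.fc4
  rw [fcI_eq, fcI_eq, fcI_eq, fcI_eq]

theorem ands_iff {a b : Bool} : K.ands a b = true ↔ a = true ∧ b = true := by
  cases a <;> cases b <;> simp [K.ands]

theorem notb_iff {a : Bool} : K.notb a = true ↔ ¬ a = true := by
  cases a <;> simp [K.notb]

theorem beq_iff {a b : ℕ} : Nat.beq a b = true ↔ a = b :=
  ⟨Nat.eq_of_beq_eq_true, fun h => by rw [h]; exact Nat.beq_refl b⟩

theorem okb_iff {b : Bool} {s : ℕ} (h : K.okb b s ≠ 0) : b = true := by
  cases b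
  · exact absurd rfl h
  · rfl

theorem dvdI_iff {n : ℕ} {x : ℤ} : K.dvdI n x = true ↔ (n : ℤ) ∣ x := by
  unfold K.dvdI
  rw [beq_iff, Int.natCast_dvd]
  exact Nat.dvd_iff_mod_eq_zero.symm

theorem dotI_eq (u v : K.I4) : K.dotI u v = vI u ⬝ᵥ vI v := by
  unfold K.dotI vI
  simp only [dotProduct, Fin.sum_univ_four]
  simp
  show u.x * v.x + u.y * v.y + (u.z * v.z + u.w * v.w) = _
  ring

theorem mulI_eq (A : K.I10) (v : K.I4) : vI (K.mulI A v) = (matI A).mulVec (vI v) := by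
  ext i
  fin_cases i
  · show A.a00 * v.x + A.a01 * v.y + (A.a02 * v.z + A.a03 * v.w) = _
    simp [matI, vI, Matrix.mulVec, dotProduct, Fin.sum_univ_four]; ring
  · show A.a01 * v.x + A.a11 * v.y + (A.a12 * v.z + A.a13 * v.w) = _
    simp [matI, vI, Matrix.mulVec, dotProduct, Fin.sum_univ_four]; ring
  · show A.a02 * v.x + A.a12 * v.y + (A.a22 * v.z + A.a23 * v.w) = _
    simp [matI, vI, Matrix.mulVec, dotProduct, Fin.sum_univ_four]; ring
  · show A.a03 * v.x + A.a13 * v.y + (A.a23 * v.z + A.a33 * v.w) = _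
    simp [matI, vI, Matrix.mulVec, dotProduct, Fin.sum_univ_four]; ring

theorem dvdL_spec {m : ℕ} {u : K.I4} {X : List ℕ} (h : K.dvdL m u X = true) :
    ∀ x ∈ X, (m : ℤ) ∣ vI (K.unp x) ⬝ᵥ vI u := by
  induction X with
  | nil => intro x hx; simp at hx
  | cons a l ih =>
    have h' : (Bool.rec false (K.dvdL m u l) (K.dvdI m (K.dotI (K.unp a) u)) : Bool) = true := h
    rcases hc : K.dvdI m (K.dotI (K.unp a) u) with _ | _
    · rw [hc] at h'; exact absurd h' (by simp)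
    · rw [hc] at h'
      intro x hx
      rcases List.mem_cons.1 hx with rfl | hx
      · rw [← dotI_eq]; exact dvdI_iff.1 hc
      · exact ih h' x hx

theorem dvd4_iff {m : ℕ} {u : K.I4} : K.dvd4 m u = true ↔ ∀ i, (m : ℤ) ∣ vI u i := by
  unfold K.dvd4
  rw [ands_iff, ands_iff, ands_iff, dvdI_iff, dvdI_iff, dvdI_iff, dvdI_iff, Fin.forall_fin_succ,
    Fin.forall_fin_succ, Fin.forall_fin_succ, Fin.forall_fin_succ]
  simp [vI]
  tauto

/-! ### the submodules -/

theorem cg_mem {p : ℕ} {B : List Z4} {x y : Z4} (h : Cg p x y) (hy : y ∈ SubX p B) :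
    x ∈ SubX p B := by
  choose w hw using h
  have : x = y + (p : ℤ) • w := by
    ext i
    simp only [Pi.add_apply, Pi.smul_apply, smul_eq_mul]
    linarith [hw i]
  rw [this]
  exact Submodule.add_mem _ hy (Submodule.subset_span (Or.inr ⟨w, rfl⟩))

theorem cg_symm {p : ℕ} {x y : Z4} (h : Cg p x y) : Cg p y x := by
  intro i
  have := (h i).neg_right
  rwa [neg_sub] at this

/-- Induction over the submodule. -/
theorem subX_dvd {p : ℕ} {B : List Z4} (q : ℤ) (u : Z4) (hp : ∀ w : Z4, q ∣ ((p : ℤ) • w) ⬝ᵥ u)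
    (hB : ∀ b ∈ B, q ∣ b ⬝ᵥ u) : ∀ x ∈ SubX p B, q ∣ x ⬝ᵥ u := by
  intro x hx
  refine Submodule.span_induction (p := fun x _ => q ∣ x ⬝ᵥ u) ?_ ?_ ?_ ?_ hx
  · rintro y (hy | ⟨w, rfl⟩)
    · exact hB y hy
    · exact hp w
  · simp
  · intro a b _ _ ha hb
    rw [add_dotProduct]; exact dvd_add ha hb
  · intro c a _ ha
    rw [smul_dotProduct]; exact Dvd.dvd.mul_left ha c

/-! ### reading combinations -/

theorem subX_mono {p : ℕ} {B : List Z4} (b : Z4) {x : Z4} (h : x ∈ SubX p B) :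
    x ∈ SubX p (b :: B) := by
  refine Submodule.span_mono ?_ h
  rintro y (hy | hy)
  · exact Or.inl (List.mem_cons_of_mem _ hy)
  · exact Or.inr hy

theorem rdCo_cons (x : ℕ) (X : List ℕ) (f : ℕ → ℕ → ℕ) (s : ℕ) :
    K.rdCo (x :: X) f s = K.rdCo X (fun t s' => f (t + s % 128 * x) s') (s / 128) :=
  fc_eq (Nat.mod s 128) (fun c => K.rdCo X (fun t s' => f (Nat.add t (Nat.mul c x)) s')
    (Nat.div s 128))

theorem rdCo_spec {p : ℕ} (hp : 1 ≤ p) (hp' : p ≤ 127) (B : List Z4) :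
    ∀ (f : ℕ → ℕ → ℕ) (s : ℕ), K.rdCo (B.map (pkZ p)) f s ≠ 0 →
    ∃ (t s' : ℕ) (v : Z4) (d0 d1 d2 d3 : ℕ), f t s' ≠ 0 ∧ t = K.p4 d0 d1 d2 d3 ∧
      d0 ≤ 16129 * B.length ∧ d1 ≤ 16129 * B.length ∧ d2 ≤ 16129 * B.length ∧
      d3 ≤ 16129 * B.length ∧ v ∈ SubX p B ∧ Cg p (nz d0 d1 d2 d3) v := by
  induction B with
  | nil =>
    intro f s h
    refine ⟨0, s, 0, 0, 0, 0, 0, h, rfl, by simp, by simp, by simp, by simp,
      Submodule.zero_mem _, ?_⟩
    intro i
    fin_cases i <;> simp [nz]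
  | cons b B ih =>
    intro f s h
    rw [List.map_cons, rdCo_cons] at h
    obtain ⟨t, s', v, d0, d1, d2, d3, hf, ht, h0, h1, h2, h3, hv, hc⟩ := ih _ _ h
    have hc128 : s % 128 ≤ 127 := by omega
    have hpz : (0 : ℤ) < p := by exact_mod_cast hp
    have hb : ∀ i, (b i % (p : ℤ)).toNat ≤ 127 := by
      intro i
      have := Int.emod_lt_of_pos (b i) hpz
      have := Int.emod_nonneg (b i) hpz.ne'
      have hp2 : (p : ℤ) ≤ 127 := by exact_mod_cast hp'
      omega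
    have hb' : ∀ i, (((b i % (p : ℤ)).toNat : ℕ) : ℤ) = b i % p := by
      intro i
      exact Int.toNat_of_nonneg (Int.emod_nonneg (b i) hpz.ne')
    have hm : ∀ i, s % 128 * (b i % (p : ℤ)).toNat ≤ 16129 := by
      intro i
      calc s % 128 * (b i % (p : ℤ)).toNat ≤ 127 * 127 := Nat.mul_le_mul hc128 (hb i)
        _ = 16129 := by norm_num
    refine ⟨t + s % 128 * pkZ p b, s', v + ((s % 128 : ℕ) : ℤ) • b,
      d0 + s % 128 * (b 0 % (p : ℤ)).toNat, d1 + s % 128 * (b 1 % (p : ℤ)).toNat,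
      d2 + s % 128 * (b 2 % (p : ℤ)).toNat, d3 + s % 128 * (b 3 % (p : ℤ)).toNat, hf, ?_, ?_, ?_,
      ?_, ?_, ?_, ?_⟩
    · rw [ht]
      unfold pkZ
      show (d0 + 65536 * d1 + (4294967296 * d2 + 281474976710656 * d3)) + _ =
        (_ + 65536 * (_) + (4294967296 * (_) + 281474976710656 * (_)))
      ring
    · have := hm 0
      rw [List.length_cons]; omega
    · have := hm 1
      rw [List.length_cons]; omega
    · have := hm 2
      rw [List.length_cons]; omega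
    · have := hm 3
      rw [List.length_cons]; omega
    · refine Submodule.add_mem _ (subX_mono b hv) (Submodule.smul_mem _ _
        (Submodule.subset_span (Or.inl ?_)))
      exact List.mem_cons_self
    · have key : ∀ (i : Fin 4) (d : ℕ), (p : ℤ) ∣ d - v i →
          (p : ℤ) ∣ ((d + s % 128 * (b i % (p : ℤ)).toNat : ℕ) : ℤ) -
            (v i + ((s % 128 : ℕ) : ℤ) * b i) := by
        intro i d hd
        push_cast
        rw [hb' i]
        have e1 : (p : ℤ) ∣ b i % p - b i := by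
          have := Int.emod_add_mul_ediv (b i) (p : ℤ)
          refine ⟨-(b i / p), ?_⟩
          linarith
        obtain ⟨k1, h1⟩ := hd
        obtain ⟨k2, h2⟩ := e1
        refine ⟨k1 + (s % 128 : ℤ) * k2, ?_⟩
        linear_combination h1 + (s % 128 : ℤ) * h2
      intro i
      have := hc i
      fin_cases i
      · exact key 0 d0 this
      · exact key 1 d1 this
      · exact key 2 d2 this
      · exact key 3 d3 this

/-- The vector which is read. -/
theorem rdCo_spec' (hpk : PkZStmt) {p : ℕ} (hp : 1 ≤ p) (hp' : p ≤ 127) {B : List Z4}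
    (hB : B.length ≤ 3) {f : ℕ → ℕ → ℕ} {s : ℕ} (h : K.rdCo (B.map (pkZ p)) f s ≠ 0) :
    ∃ (t s' : ℕ) (v : Z4), f t s' ≠ 0 ∧ v ∈ SubX p B ∧ K.redm p t = pkZ p v := by
  obtain ⟨t, s', v, d0, d1, d2, d3, hf, ht, h0, h1, h2, h3, hv, hc⟩ := rdCo_spec hp hp' B f s h
  refine ⟨t, s', v, hf, hv, ?_⟩
  obtain ⟨P1, -, -, -, P5⟩ := hpk p hp hp'
  rw [ht, P5 d0 d1 d2 d3 (by omega) (by omega) (by omega) (by omega), P1]
  exact hc

/-! ### the three kinds -/

theorem bas_col {p : ℕ} {X : Submodule ℤ Z4} {W : M4} (h : Bas p X W) (i : Fin 4) :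
    (fun j => W j i) ∈ X := by
  rw [h.2]
  refine ⟨Pi.single i 1, ?_⟩
  ext j
  simp

theorem L_mulVec {W R : M4} {y : Z4} (i : Fin 4) :
    (W.transpose * R * W).mulVec y i = (fun j => W j i) ⬝ᵥ R.mulVec (W.mulVec y) := by
  rw [← Matrix.mulVec_mulVec, ← Matrix.mulVec_mulVec]
  rfl

theorem unp_mem (hpk : PkZStmt) {p : ℕ} (hp : 1 ≤ p) (hp' : p ≤ 127) {B : List Z4} {v : Z4}
    (hv : v ∈ SubX p B) : vI (K.unp (pkZ p v)) ∈ SubX p B :=
  cg_mem ((hpk p hp hp').2.2.1 v) hv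

/-- products with the vectors of the list -/
theorem subX_orth (hpk : PkZStmt) {p : ℕ} (hp : 1 ≤ p) (hp' : p ≤ 127) {B : List Z4} {m : ℕ}
    {u : K.I4} (h : K.dvdL m u (B.map (pkZ p)) = true)
    (hpu : ∀ w : Z4, (m : ℤ) ∣ ((p : ℤ) • w) ⬝ᵥ vI u) :
    ∀ x ∈ SubX p B, (m : ℤ) ∣ x ⬝ᵥ vI u := by
  refine subX_dvd (m : ℤ) (vI u) hpu ?_
  intro b hb
  have h1 := dvdL_spec h (pkZ p b) (List.mem_map_of_mem hb)
  have h2 := (hpk p hp hp').2.2.1 b
  choose w hw using h2
  have h3 : b = vI (K.unp (pkZ p b)) - (p : ℤ) • w := by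
    ext i
    simp only [Pi.sub_apply, Pi.smul_apply, smul_eq_mul]
    linarith [hw i]
  rw [h3, sub_dotProduct]
  exact dvd_sub h1 (hpu w)

theorem resN (hpk : PkZStmt) : ResNStmt := by
  intro O F B s A hO hB h
  have hp : 1 ≤ O.p := hO.pr.one_le
  unfold K.resN at h
  obtain ⟨t, s', v, hf, hv, ht⟩ := rdCo_spec' hpk hp hO.ple hB h
  rw [fc_eq, fc4_eq] at hf
  have h1 := okb_iff hf
  rw [ands_iff, notb_iff, dvd4_iff, ht, mulI_eq] at h1
  obtain ⟨h2, h3⟩ := h1
  have hx := unp_mem hpk hp hO.ple hv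
  generalize hxx : K.unp (pkZ O.p v) = x at h2 h3 hx
  have h4 := subX_orth hpk hp hO.ple h3 (by
    intro w; rw [smul_dotProduct]; exact dvd_mul_right _ _)
  rw [mulI_eq] at h4
  intro W L hW hL hPrim hC hLat hRef
  exfalso
  apply h2
  obtain ⟨w, hw⟩ := (hW.2 _).1 hx
  have := hC.1 w (by
    intro i
    rw [hL, L_mulVec, ← hw]
    exact h4 _ (bas_col hW i))
  rw [← hw] at this
  exact this

theorem resA (hpk : PkZStmt) : ResAStmt := by
  intro O F B s A hO hB h
  have hp : 1 ≤ O.p := hO.pr.one_le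
  unfold K.resA K.rdI K.rd4 at h
  simp only [fc_eq, fc4_eq] at h
  generalize K.I4.mk _ _ _ _ = z at h
  obtain ⟨t, s', v, hf, hv, ht⟩ := rdCo_spec' hpk hp hO.ple hB h
  have h1 := okb_iff hf
  rw [ands_iff, ands_iff, ands_iff, dvd4_iff, ht, mulI_eq, beq_iff] at h1
  obtain ⟨⟨h2, h3⟩, h4, h5⟩ := h1
  obtain ⟨P1, P2, -, -, -⟩ := hpk O.p hp hO.ple
  rw [P2, P1] at h2
  rw [P2] at h3
  have hz : vI z ∈ SubX O.p B := cg_mem h2 hv
  have h6 := subX_orth hpk hp hO.ple h5 (by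
    intro w
    rw [smul_dotProduct, mulI_eq]
    have : ((Nat.mul O.p O.p : ℕ) : ℤ) = (O.p : ℤ) * O.p := Int.natCast_mul _ _
    rw [this]
    refine mul_dvd_mul_left _ ?_
    unfold dotProduct
    exact Finset.dvd_sum fun i _ => Dvd.dvd.mul_left (h4 i) _)
  rw [mulI_eq] at h6
  intro W L hW hL hPrim hC hLat hRef
  exfalso
  obtain ⟨w, hw⟩ := (hW.2 _).1 hz
  have h7 := hC.2 w (by
    intro i
    rw [hL, L_mulVec, ← hw]
    have := h6 _ (bas_col hW i)
    rw [sq]
    have e : ((Nat.mul O.p O.p : ℕ) : ℤ) = (O.p : ℤ) * O.p := Int.natCast_mul _ _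
    rwa [e] at this)
  rw [← hw] at h7
  have h8 : pkZ O.p (vI z) = pkZ O.p 0 := by
    rw [P1]
    intro i
    simpa using h7 i
  have h9 : pkZ O.p 0 = 0 := by
    unfold pkZ; simp
  have h10 : 1 ≤ pkZ O.p (vI z) := Nat.le_of_ble_eq_true h3
  omega

theorem all_spec {X Y : List ℕ} {g : ℕ → K.I4} {m : ℕ}
    (h : (List.rec true (fun x _ ih => Bool.rec false ih (K.dvdL m (g x) X)) Y : Bool) = true) :
    ∀ y ∈ Y, K.dvdL m (g y) X = true := by
  induction Y with
  | nil => intro y hy; simp at hy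
  | cons a l ih =>
    rcases hc : K.dvdL m (g a) X with _ | _
    · simp only [hc] at h
      exact absurd h (by simp)
    · simp only [hc] at h
      intro y hy
      rcases List.mem_cons.1 hy with rfl | hy
      · exact hc
      · exact ih h y hy

theorem resP (hpk : PkZStmt) : ResPStmt := by
  intro O F B s A hO hB h
  have hp : 1 ≤ O.p := hO.pr.one_le
  unfold K.resP at h
  have h1 := all_spec (g := fun x => K.mulI O.A (K.unp x)) (okb_iff h)
  have hsym : (matI O.A).transpose = matI O.A := hO.lat.symm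
  have hpw : ∀ u w : Z4, (O.p : ℤ) ∣ ((O.p : ℤ) • w) ⬝ᵥ u := by
    intro u w; rw [smul_dotProduct]; exact dvd_mul_right _ _
  have h2 : ∀ b ∈ B, ∀ x ∈ SubX O.p B,
      (O.p : ℤ) ∣ x ⬝ᵥ (matI O.A).mulVec (vI (K.unp (pkZ O.p b))) := by
    intro b hb x hx
    have := subX_orth hpk hp hO.ple (h1 (pkZ O.p b) (List.mem_map_of_mem hb)) (hpw _) x hx
    rwa [mulI_eq] at this
  have hcomm : ∀ x y : Z4, x ⬝ᵥ (matI O.A).mulVec y = y ⬝ᵥ (matI O.A).mulVec x := by
    intro x y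
    rw [dotProduct_comm, ← Matrix.dotProduct_transpose_mulVec, hsym, dotProduct_comm]
  have h3 : ∀ x ∈ SubX O.p B, ∀ y ∈ SubX O.p B, (O.p : ℤ) ∣ y ⬝ᵥ (matI O.A).mulVec x := by
    intro x hx
    refine subX_dvd _ _ (hpw _) ?_
    intro b hb
    have h4 := h2 b hb x hx
    rw [hcomm] at h4
    have h5 := (hpk O.p hp hO.ple).2.2.1 b
    choose w hw using h5
    have h6 : b = vI (K.unp (pkZ O.p b)) - (O.p : ℤ) • w := by
      ext i
      simp only [Pi.sub_apply, Pi.smul_apply, smul_eq_mul]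
      linarith [hw i]
    rw [h6, sub_dotProduct]
    exact dvd_sub h4 (hpw _ w)
  intro W L hW hL hPrim hC hLat hRef
  exfalso
  have h7 := hPrim (O.p : ℤ) (by
    intro i j
    rw [hL]
    have e : (W.transpose * matI O.A * W) i j =
        (fun k => W k i) ⬝ᵥ (matI O.A).mulVec (fun k => W k j) := by
      have := L_mulVec (W := W) (R := matI O.A) (y := Pi.single j 1) i
      have e1 : W.mulVec (Pi.single j 1) = fun k => W k j := by
        ext k; simp
      rw [e1] at this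
      rw [← this]
      simp
    rw [e]
    exact h3 _ (bas_col hW j) _ (bas_col hW i))
  exact (Nat.prime_iff_prime_int.1 hO.pr).not_isUnit h7

end Pool.Agent.Refl.H91R
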