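import Pool.Agent.Helper23_Refl.StmtC5

/-!
REFL, module COD2: codes of planes.
-/

namespace Pool.Agent.Refl.H91D

open Matrix

theorem fc_eq {α : Type} (n : ℕ) (f : ℕ → α) : K.fc n f = f n := by
  cases n <;> rfl

theorem cg_iff {p : ℕ} {x y : Z4} : Cg p x y ↔ ∀ i, ((x i : ℤ) : ZMod p) = (y i : ℤ) := by
  unfold Cg
  refine forall_congr' fun i => ?_
  rw [ZMod.intCast_eq_intCast_iff_dvd_sub, ← dvd_neg, neg_sub]

/-- first nonzero element -/
def fz {p : ℕ} (a b c d e f : ZMod p) : ZMod p :=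
  if a ≠ 0 then a else if b ≠ 0 then b else if c ≠ 0 then c else if d ≠ 0 then d
    else if e ≠ 0 then e else f

/-- minor -/
def mi {p : ℕ} (x y : Z4) (i j : Fin 4) : ZMod p :=
  ((x i : ℤ) : ZMod p) * (y j : ℤ) - ((x j : ℤ) : ZMod p) * (y i : ℤ)

/-- packed -/
def pkF {p : ℕ} (a b c d e f : ZMod p) : ℕ :=
  ((a.val * p + b.val) * p + c.val) * (p * (p * p)) + ((d.val * p + e.val) * p + f.val)

theorem mn_cast {p a b c d : ℕ} (hb : b ≤ p) :
    ((K.mn p a b c d : ℕ) : ZMod p) = (a : ZMod p) * d - b * c := by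
  show (((a * d + (p - b) * c) % p : ℕ) : ZMod p) = _
  rw [ZMod.natCast_mod]
  push_cast [Nat.cast_sub hb]
  simp
  ring

theorem mn_lt {p a b c d : ℕ} (hp : 0 < p) : K.mn p a b c d < p := Nat.mod_lt _ hp

theorem fst6_cast {p : ℕ} {a b c d e f : ℕ} (ha : a < p) (hb : b < p) (hc : c < p) (hd : d < p)
    (he : e < p) (_hf : f < p) :
    ((K.fst6 a b c d e f : ℕ) : ZMod p) = fz (a : ZMod p) b c d e f := by
  have key : ∀ n : ℕ, n < p → ((n : ZMod p) = 0 ↔ n = 0) := by
    intro n hn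
    rw [ZMod.natCast_eq_zero_iff]
    exact ⟨fun h => Nat.eq_zero_of_dvd_of_lt h hn, fun h => by rw [h]; exact dvd_zero p⟩
  unfold fz
  simp only [ne_eq, key a ha, key b hb, key c hc, key d hd, key e he]
  unfold K.fst6
  rcases a with _ | a
  · rcases b with _ | b
    · rcases c with _ | c
      · rcases d with _ | d
        · rcases e with _ | e
          · simp
          · simp
        · simp
      · simp
    · simp
  · simp

theorem invp_cast {p n : ℕ} [Fact p.Prime] (hn : (n : ZMod p) ≠ 0) :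
    ((K.invp p n : ℕ) : ZMod p) = (n : ZMod p)⁻¹ := by
  show ((n ^ (p - 2) % p : ℕ) : ZMod p) = _
  rw [ZMod.natCast_mod]
  push_cast
  have hp := (Fact.out : p.Prime).two_le
  refine eq_inv_of_mul_eq_one_left ?_
  rw [← pow_succ]
  have : p - 2 + 1 = p - 1 := by omega
  rw [this]
  exact ZMod.pow_card_sub_one_eq_one hn

/-- The code is a function of the minors. -/
theorem code2_eq (hpk : PkZStmt) {p : ℕ} [hF : Fact p.Prime] (hp' : p ≤ 127) (x y : Z4) :
    K.code2 p (pkZ p x) (pkZ p y) =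
      (fun l : ZMod p => pkF (l⁻¹ * mi x y 0 1) (l⁻¹ * mi x y 0 2) (l⁻¹ * mi x y 0 3)
        (l⁻¹ * mi x y 1 2) (l⁻¹ * mi x y 1 3) (l⁻¹ * mi x y 2 3))
      (fz (mi x y 0 1) (mi x y 0 2) (mi x y 0 3) (mi x y 1 2) (mi x y 1 3) (mi x y 2 3)) := by
  have hp := hF.out
  obtain ⟨-, -, -, P4, -⟩ := hpk p hp.one_le hp'
  obtain ⟨x0, x1, x2, x3⟩ := P4 x
  obtain ⟨y0, y1, y2, y3⟩ := P4 y
  have hpz : (0 : ℤ) < p := by exact_mod_cast hp.pos
  have cast : ∀ (n : ℕ) (z : ℤ), (n : ℤ) = z % p → ((n : ZMod p) = (z : ZMod p)) ∧ n ≤ p := by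
    intro n z h
    constructor
    · have : ((n : ℤ) : ZMod p) = ((z % (p : ℤ) : ℤ) : ZMod p) := by rw [h]
      rw [ZMod.intCast_mod] at this
      simpa using this
    · have := Int.emod_lt_of_pos z hpz
      omega
  unfold K.code2
  simp only [fc_eq]
  obtain ⟨cx0, lx0⟩ := cast _ _ x0
  obtain ⟨cx1, lx1⟩ := cast _ _ x1
  obtain ⟨cx2, lx2⟩ := cast _ _ x2
  obtain ⟨cx3, lx3⟩ := cast _ _ x3
  obtain ⟨cy0, -⟩ := cast _ _ y0
  obtain ⟨cy1, -⟩ := cast _ _ y1
  obtain ⟨cy2, -⟩ := cast _ _ y2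
  obtain ⟨cy3, -⟩ := cast _ _ y3
  generalize K.dig0 (pkZ p x) = X0 at *
  generalize K.dig1 (pkZ p x) = X1 at *
  generalize K.dig2 (pkZ p x) = X2 at *
  generalize K.dig3 (pkZ p x) = X3 at *
  generalize K.dig0 (pkZ p y) = Y0 at *
  generalize K.dig1 (pkZ p y) = Y1 at *
  generalize K.dig2 (pkZ p y) = Y2 at *
  generalize K.dig3 (pkZ p y) = Y3 at *
  have ma := mn_cast (p := p) (a := X0) (b := X1) (c := Y0) (d := Y1) lx1
  have mb := mn_cast (p := p) (a := X0) (b := X2) (c := Y0) (d := Y2) lx2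
  have mc := mn_cast (p := p) (a := X0) (b := X3) (c := Y0) (d := Y3) lx3
  have md := mn_cast (p := p) (a := X1) (b := X2) (c := Y1) (d := Y2) lx2
  have me := mn_cast (p := p) (a := X1) (b := X3) (c := Y1) (d := Y3) lx3
  have mf := mn_cast (p := p) (a := X2) (b := X3) (c := Y2) (d := Y3) lx3
  rw [cx0, cy1, cx1, cy0] at ma
  rw [cx0, cy2, cx2, cy0] at mb
  rw [cx0, cy3, cx3, cy0] at mc
  rw [cx1, cy2, cx2, cy1] at md
  rw [cx1, cy3, cx3, cy1] at me
  rw [cx2, cy3, cx3, cy2] at mf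
  have la : K.mn p X0 X1 Y0 Y1 < p := mn_lt hp.pos
  have lb : K.mn p X0 X2 Y0 Y2 < p := mn_lt hp.pos
  have lc : K.mn p X0 X3 Y0 Y3 < p := mn_lt hp.pos
  have ld : K.mn p X1 X2 Y1 Y2 < p := mn_lt hp.pos
  have le : K.mn p X1 X3 Y1 Y3 < p := mn_lt hp.pos
  have lf : K.mn p X2 X3 Y2 Y3 < p := mn_lt hp.pos
  generalize K.mn p X0 X1 Y0 Y1 = a at *
  generalize K.mn p X0 X2 Y0 Y2 = b at *
  generalize K.mn p X0 X3 Y0 Y3 = c at *
  generalize K.mn p X1 X2 Y1 Y2 = d at *
  generalize K.mn p X1 X3 Y1 Y3 = e at *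
  generalize K.mn p X2 X3 Y2 Y3 = f at *
  have hfst := fst6_cast la lb lc ld le lf
  rw [show mi x y 0 1 = (a : ZMod p) from ma.symm, show mi x y 0 2 = (b : ZMod p) from mb.symm,
    show mi x y 0 3 = (c : ZMod p) from mc.symm, show mi x y 1 2 = (d : ZMod p) from md.symm,
    show mi x y 1 3 = (e : ZMod p) from me.symm, show mi x y 2 3 = (f : ZMod p) from mf.symm]
  have hval : ∀ n i : ℕ, ((i : ZMod p) * n = (fz (a : ZMod p) b c d e f)⁻¹ * n) →
      Nat.mod (Nat.mul i n) p = ((fz (a : ZMod p) b c d e f)⁻¹ * (n : ZMod p)).val := by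
    intro n i h
    rw [← h, ← Nat.cast_mul, ZMod.val_natCast]
    rfl
  have hz : fz (a : ZMod p) b c d e f = 0 → (a : ZMod p) = 0 ∧ (b : ZMod p) = 0 ∧
      (c : ZMod p) = 0 ∧ (d : ZMod p) = 0 ∧ (e : ZMod p) = 0 ∧ (f : ZMod p) = 0 := by
    intro h
    unfold fz at h
    split_ifs at h with h1 h2 h3 h4 h5
    · exact absurd h h1
    · exact absurd h h2
    · exact absurd h h3
    · exact absurd h h4
    · exact absurd h h5
    · simp only [ne_eq, not_not] at h1 h2 h3 h4 h5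
      exact ⟨h1, h2, h3, h4, h5, h⟩
  have hi : ∀ n : ℕ, (fz (a : ZMod p) b c d e f = 0 → (n : ZMod p) = 0) →
      ((K.invp p (K.fst6 a b c d e f) : ℕ) : ZMod p) * n =
        (fz (a : ZMod p) b c d e f)⁻¹ * n := by
    intro n hn
    by_cases h : fz (a : ZMod p) b c d e f = 0
    · rw [hn h, mul_zero, mul_zero]
    · rw [invp_cast (by rw [hfst]; exact h), hfst]
  rw [hval a _ (hi a fun h => (hz h).1), hval b _ (hi b fun h => (hz h).2.1),
    hval c _ (hi c fun h => (hz h).2.2.1), hval d _ (hi d fun h => (hz h).2.2.2.1),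
    hval e _ (hi e fun h => (hz h).2.2.2.2.1), hval f _ (hi f fun h => (hz h).2.2.2.2.2)]
  rfl

theorem fz_mul {p : ℕ} [Fact p.Prime] {t : ZMod p} (ht : t ≠ 0) (a b c d e f : ZMod p) :
    fz (t * a) (t * b) (t * c) (t * d) (t * e) (t * f) = t * fz a b c d e f := by
  have key : ∀ z : ZMod p, t * z ≠ 0 ↔ z ≠ 0 := fun z => by simp [ht]
  unfold fz
  simp only [key]
  split_ifs <;> rfl

theorem mi_comb {p : ℕ} {x y x' y' : Z4} {a b c d : ℤ} (hx : Cg p x' (a • x + b • y))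
    (hy : Cg p y' (c • x + d • y)) (i j : Fin 4) :
    (mi x' y' i j : ZMod p) = ((a * d - b * c : ℤ) : ZMod p) * mi x y i j := by
  rw [cg_iff] at hx hy
  unfold mi
  rw [hx i, hx j, hy i, hy j]
  simp only [Pi.add_apply, Pi.smul_apply, smul_eq_mul]
  push_cast
  ring

theorem ind_of {p : ℕ} (hp : p.Prime) {x y : Z4} {i j : Fin 4} (h : (mi x y i j : ZMod p) ≠ 0) :
    Ind p x y := by
  have : Fact p.Prime := ⟨hp⟩
  intro a b hab
  rw [cg_iff] at hab
  have hi := hab i
  have hj := hab j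
  simp only [Pi.add_apply, Pi.smul_apply, smul_eq_mul, Pi.zero_apply] at hi hj
  push_cast at hi hj
  unfold mi at h
  have ea : (a : ZMod p) * (((x i : ℤ) : ZMod p) * (y j : ℤ) - ((x j : ℤ) : ZMod p) * (y i : ℤ)) =
      0 := by
    linear_combination ((y j : ℤ) : ZMod p) * hi - ((y i : ℤ) : ZMod p) * hj
  have eb : (b : ZMod p) * (((x i : ℤ) : ZMod p) * (y j : ℤ) - ((x j : ℤ) : ZMod p) * (y i : ℤ)) =
      0 := by
    linear_combination ((x i : ℤ) : ZMod p) * hj - ((x j : ℤ) : ZMod p) * hi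
  exact ⟨(ZMod.intCast_zmod_eq_zero_iff_dvd a p).1 ((mul_eq_zero.1 ea).resolve_right h),
    (ZMod.intCast_zmod_eq_zero_iff_dvd b p).1 ((mul_eq_zero.1 eb).resolve_right h)⟩

theorem exists_mi {p : ℕ} (hp : p.Prime) {x y : Z4} (h : Ind p x y) :
    ∃ i j, (mi x y i j : ZMod p) ≠ 0 := by
  have : Fact p.Prime := ⟨hp⟩
  by_contra hcon
  push Not at hcon
  by_cases hx : ∀ i, ((x i : ℤ) : ZMod p) = 0
  · have := (h 1 0 (by
      rw [cg_iff]; intro i
      simpa using hx i)).1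
    have h1 : p ∣ 1 := by exact_mod_cast this
    exact hp.one_lt.ne' (Nat.dvd_one.1 h1)
  · push Not at hx
    obtain ⟨i, hi⟩ := hx
    have := (h (y i) (-x i) (by
      rw [cg_iff]; intro j
      simp only [Pi.add_apply, Pi.smul_apply, smul_eq_mul, Pi.zero_apply]
      have := hcon i j
      unfold mi at this
      push_cast
      linear_combination -this)).2
    rw [dvd_neg] at this
    exact hi ((ZMod.intCast_zmod_eq_zero_iff_dvd _ p).2 this)

theorem mi_self {p : ℕ} (x y : Z4) (i : Fin 4) : (mi x y i i : ZMod p) = 0 := by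
  unfold mi; ring

theorem mi_swap {p : ℕ} (x y : Z4) (i j : Fin 4) : (mi x y i j : ZMod p) = -mi x y j i := by
  unfold mi; ring

/-- base change with pivots `i, j` -/
theorem base {p : ℕ} [hF : Fact p.Prime] {x y : Z4} {i j : Fin 4} (h : (mi x y i j : ZMod p) ≠ 0) :
    ∃ (x' y' : Z4) (a b c d : ℤ), ¬ (p : ℤ) ∣ a * d - b * c ∧
      Cg p x' (a • x + b • y) ∧ Cg p y' (c • x + d • y) ∧
      (∀ k, x' k = ((ZMod.val ((mi x y k j : ZMod p) / (mi x y i j : ZMod p))) : ℤ)) ∧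
      (∀ k, y' k = ((ZMod.val ((mi x y i k : ZMod p) / (mi x y i j : ZMod p))) : ℤ)) := by
  have hp := hF.out
  have : NeZero p := ⟨hp.ne_zero⟩
  generalize hm : (mi x y i j : ZMod p) = m at *
  refine ⟨fun k => ((ZMod.val ((mi x y k j : ZMod p) / m)) : ℤ), fun k => ((ZMod.val ((mi x y i k : ZMod p) / m)) : ℤ),
    (((y j : ℤ) : ZMod p) / m).val, ((-((x j : ℤ) : ZMod p)) / m).val,
    ((-((y i : ℤ) : ZMod p)) / m).val, (((x i : ℤ) : ZMod p) / m).val, ?_, ?_, ?_, fun k => rfl,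
    fun k => rfl⟩
  · rw [← ZMod.intCast_zmod_eq_zero_iff_dvd]
    push_cast
    simp only [ZMod.natCast_val, ZMod.cast_id', id_eq]
    have : ((y j : ℤ) : ZMod p) / m * (((x i : ℤ) : ZMod p) / m) -
        -((x j : ℤ) : ZMod p) / m * (-((y i : ℤ) : ZMod p) / m) = m⁻¹ := by
      have e : ((x i : ℤ) : ZMod p) * (y j : ℤ) - ((x j : ℤ) : ZMod p) * (y i : ℤ) = m := hm
      field_simp
      rw [← e]; ring
    rw [this]
    exact inv_ne_zero h
  · rw [cg_iff]
    intro k
    simp only [Pi.add_apply, Pi.smul_apply, smul_eq_mul]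
    push_cast
    simp only [ZMod.natCast_val, ZMod.cast_id', id_eq]
    unfold mi
    field_simp
    ring
  · rw [cg_iff]
    intro k
    simp only [Pi.add_apply, Pi.smul_apply, smul_eq_mul]
    push_cast
    simp only [ZMod.natCast_val, ZMod.cast_id', id_eq]
    unfold mi
    field_simp
    ring

theorem cod2 (hpk : PkZStmt) : Cod2Stmt := by
  intro p x y hp hp'
  have hF : Fact p.Prime := ⟨hp⟩
  have : NeZero p := ⟨hp.ne_zero⟩
  have : Fact (1 < p) := ⟨hp.one_lt⟩
  refine ⟨?_, ?_, ?_⟩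
  · intro h
    by_contra hcon
    have hall : ∀ i j, (mi x y i j : ZMod p) = 0 := by
      intro i j
      by_contra h'
      exact hcon (ind_of hp h')
    rw [code2_eq hpk hp' x y] at h
    simp only [hall, mul_zero] at h
    simp [pkF] at h
  · intro _ x' y' a b c d hd hx' hy'
    rw [code2_eq hpk hp' x y, code2_eq hpk hp' x' y']
    have ht : ((a * d - b * c : ℤ) : ZMod p) ≠ 0 := fun h0 =>
      hd ((ZMod.intCast_zmod_eq_zero_iff_dvd _ p).1 h0)
    have hc : ∀ i j, (mi x' y' i j : ZMod p) = ((a * d - b * c : ℤ) : ZMod p) * mi x y i j :=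
      mi_comb hx' hy'
    simp only [hc]
    rw [fz_mul ht]
    generalize ((a * d - b * c : ℤ) : ZMod p) = t at *
    have e : ∀ z : ZMod p, (t * fz (mi x y 0 1) (mi x y 0 2) (mi x y 0 3) (mi x y 1 2)
        (mi x y 1 3) (mi x y 2 3))⁻¹ * (t * z) = (fz (mi x y 0 1) (mi x y 0 2) (mi x y 0 3)
        (mi x y 1 2) (mi x y 1 3) (mi x y 2 3))⁻¹ * z := by
      intro z
      rw [mul_inv]
      field_simp
    simp only [e]
  · intro h
    have hval : ∀ z : ZMod p, z.val < p := fun z => ZMod.val_lt z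
    have hone : ∀ z : ZMod p, z ≠ 0 → (z / z).val = 1 := by
      intro z hz
      rw [div_self hz, ZMod.val_one]
    have hzero : ∀ z : ZMod p, ((0 : ZMod p) / z).val = 0 := by
      intro z; rw [zero_div, ZMod.val_zero]
    have h0 := hp.pos
    have fin : ∀ i j : Fin 4, (mi x y i j : ZMod p) ≠ 0 →
        (∀ (x' y' : Z4), (∀ k, x' k = ((ZMod.val ((mi x y k j : ZMod p) / (mi x y i j : ZMod p))) : ℤ)) →
          (∀ k, y' k = ((ZMod.val ((mi x y i k : ZMod p) / (mi x y i j : ZMod p))) : ℤ)) → PlForm p x' y') →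
        ∃ (x' y' : Z4) (a b c d : ℤ), PlForm p x' y' ∧ ¬ (p : ℤ) ∣ a * d - b * c ∧
          Cg p x' (a • x + b • y) ∧ Cg p y' (c • x + d • y) := by
      intro i j hij hpl
      obtain ⟨x', y', a, b, c, d, h1, h2, h3, h4, h5⟩ := base (p := p) hij
      exact ⟨x', y', a, b, c, d, hpl x' y' h4 h5, h1, h2, h3⟩
    by_cases h01 : (mi x y 0 1 : ZMod p) ≠ 0
    · refine fin 0 1 h01 fun x' y' hx hy => ?_
      refine ⟨(ZMod.val ((mi x y 2 1 : ZMod p) / (mi x y 0 1 : ZMod p))), (ZMod.val ((mi x y 3 1 : ZMod p) / (mi x y 0 1 : ZMod p))),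
        (ZMod.val ((mi x y 0 2 : ZMod p) / (mi x y 0 1 : ZMod p))), (ZMod.val ((mi x y 0 3 : ZMod p) / (mi x y 0 1 : ZMod p))),
        hval _, hval _, hval _, hval _, Or.inl ⟨?_, ?_⟩⟩
      · ext k
        fin_cases k
        · simp [nz, hx, hone _ h01]
        · simp [nz, hx, mi_self]
        · simp [nz, hx]
        · simp [nz, hx]
      · ext k
        fin_cases k
        · simp [nz, hy, mi_self]
        · simp [nz, hy, hone _ h01]
        · simp [nz, hy]
        · simp [nz, hy]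
    rw [not_not] at h01
    by_cases h02 : (mi x y 0 2 : ZMod p) ≠ 0
    · refine fin 0 2 h02 fun x' y' hx hy => ?_
      refine ⟨(ZMod.val ((mi x y 1 2 : ZMod p) / (mi x y 0 2 : ZMod p))), (ZMod.val ((mi x y 3 2 : ZMod p) / (mi x y 0 2 : ZMod p))),
        (ZMod.val ((mi x y 0 3 : ZMod p) / (mi x y 0 2 : ZMod p))), 0,
        hval _, hval _, hval _, h0, Or.inr (Or.inl ⟨?_, ?_⟩)⟩
      · ext k
        fin_cases k
        · simp [nz, hx, hone _ h02]
        · simp [nz, hx]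
        · simp [nz, hx, mi_self]
        · simp [nz, hx]
      · ext k
        fin_cases k
        · simp [nz, hy, mi_self]
        · simp [nz, hy, h01]
        · simp [nz, hy, hone _ h02]
        · simp [nz, hy]
    rw [not_not] at h02
    by_cases h03 : (mi x y 0 3 : ZMod p) ≠ 0
    · refine fin 0 3 h03 fun x' y' hx hy => ?_
      refine ⟨(ZMod.val ((mi x y 1 3 : ZMod p) / (mi x y 0 3 : ZMod p))), (ZMod.val ((mi x y 2 3 : ZMod p) / (mi x y 0 3 : ZMod p))),
        0, 0, hval _, hval _, h0, h0, Or.inr (Or.inr (Or.inl ⟨?_, ?_⟩))⟩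
      · ext k
        fin_cases k
        · simp [nz, hx, hone _ h03]
        · simp [nz, hx]
        · simp [nz, hx]
        · simp [nz, hx, mi_self]
      · ext k
        fin_cases k
        · simp [nz, hy, mi_self]
        · simp [nz, hy, h01]
        · simp [nz, hy, h02]
        · simp [nz, hy, hone _ h03]
    rw [not_not] at h03
    by_cases h12 : (mi x y 1 2 : ZMod p) ≠ 0
    · refine fin 1 2 h12 fun x' y' hx hy => ?_
      refine ⟨(ZMod.val ((mi x y 3 2 : ZMod p) / (mi x y 1 2 : ZMod p))), (ZMod.val ((mi x y 1 3 : ZMod p) / (mi x y 1 2 : ZMod p))),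
        0, 0, hval _, hval _, h0, h0, Or.inr (Or.inr (Or.inr (Or.inl ⟨?_, ?_⟩)))⟩
      · ext k
        fin_cases k
        · simp [nz, hx, h02]
        · simp [nz, hx, hone _ h12]
        · simp [nz, hx, mi_self]
        · simp [nz, hx]
      · ext k
        fin_cases k
        · simp [nz, hy, mi_swap x y 1 0, h01]
        · simp [nz, hy, mi_self]
        · simp [nz, hy, hone _ h12]
        · simp [nz, hy]
    rw [not_not] at h12
    by_cases h13 : (mi x y 1 3 : ZMod p) ≠ 0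
    · refine fin 1 3 h13 fun x' y' hx hy => ?_
      refine ⟨(ZMod.val ((mi x y 2 3 : ZMod p) / (mi x y 1 3 : ZMod p))), 0, 0, 0, hval _, h0, h0, h0,
        Or.inr (Or.inr (Or.inr (Or.inr (Or.inl ⟨?_, ?_⟩))))⟩
      · ext k
        fin_cases k
        · simp [nz, hx, h03]
        · simp [nz, hx, hone _ h13]
        · simp [nz, hx]
        · simp [nz, hx, mi_self]
      · ext k
        fin_cases k
        · simp [nz, hy, mi_swap x y 1 0, h01]
        · simp [nz, hy, mi_self]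
        · simp [nz, hy, h12]
        · simp [nz, hy, hone _ h13]
    rw [not_not] at h13
    by_cases h23 : (mi x y 2 3 : ZMod p) ≠ 0
    · refine fin 2 3 h23 fun x' y' hx hy => ?_
      refine ⟨0, 0, 0, 0, h0, h0, h0, h0, Or.inr (Or.inr (Or.inr (Or.inr (Or.inr ⟨?_, ?_⟩))))⟩
      · ext k
        fin_cases k
        · simp [nz, hx, h03]
        · simp [nz, hx, h13]
        · simp [nz, hx, hone _ h23]
        · simp [nz, hx, mi_self]
      · ext k
        fin_cases k
        · simp [nz, hy, mi_swap x y 2 0, h02]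
        · simp [nz, hy, mi_swap x y 2 1, h12]
        · simp [nz, hy, mi_self]
        · simp [nz, hy, hone _ h23]
    rw [not_not] at h23
    exfalso
    obtain ⟨i, j, hij⟩ := exists_mi hp h
    apply hij
    fin_cases i <;> fin_cases j <;>
      simp only [Fin.zero_eta, Fin.mk_one, Fin.reduceFinMk, mi_self, h01, h02, h03, h12, h13, h23,
        mi_swap x y 1 0, mi_swap x y 2 0, mi_swap x y 3 0, mi_swap x y 2 1, mi_swap x y 3 1,
        mi_swap x y 3 2, neg_zero]

end Pool.Agent.Refl.H91D
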