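import Pool.Agent.Helper23_Refl.StmtC2

/-!
REFL, module FARC: linear algebra at a vertex.
-/

namespace Pool.Agent.Refl.H91

open Matrix

theorem bz_eq (G : M4) (x y : Z4) : bz G x y = x ⬝ᵥ G.mulVec y := by
  unfold bz
  simp only [dotProduct, Matrix.mulVec, Finset.mul_sum, mul_assoc]

theorem bz_comm {G : M4} (hG : G.transpose = G) (x y : Z4) : bz G x y = bz G y x := by
  unfold bz
  rw [Finset.sum_comm]
  apply Finset.sum_congr rfl
  intro i _
  apply Finset.sum_congr rfl
  intro j _
  have : G j i = G i j := congrFun (congrFun hG i) j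
  rw [this]; ring

theorem bz_add (G : M4) (x y z : Z4) : bz G x (y + z) = bz G x y + bz G x z := by
  simp only [bz_eq, Matrix.mulVec_add, dotProduct_add]

theorem bz_smul (G : M4) (c : ℤ) (x y : Z4) : bz G x (c • y) = c * bz G x y := by
  simp only [bz_eq, Matrix.mulVec_smul, dotProduct_smul, smul_eq_mul]

theorem det_neg {G : M4} (h : Sig31 G) : G.det < 0 := by
  obtain ⟨P, hP, h⟩ := h
  have h1 := congrArg Matrix.det h
  rw [Matrix.det_mul, Matrix.det_mul, Matrix.det_transpose, Matrix.det_diagonal] at h1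
  have h2 : (G.map (Int.cast : ℤ → ℝ)).det = ((G.det : ℤ) : ℝ) := by
    rw [Int.cast_det]
  rw [h2] at h1
  have h3 : (∏ i : Fin 4, (![1, 1, 1, -1] : Fin 4 → ℝ) i) = -1 := by
    simp [Fin.prod_univ_four]
  rw [h3] at h1
  have h4 : ((G.det : ℤ) : ℝ) * P.det ^ 2 = -1 := by rw [← h1]; ring
  have h5 : ((G.det : ℤ) : ℝ) < 0 := by
    by_contra h6
    push Not at h6
    have := mul_nonneg h6 (sq_nonneg P.det)
    linarith
  exact_mod_cast h5

theorem gram_apply (M G : M4) (i j : Fin 4) : (M * G * M.transpose) i j = bz G (M i) (M j) := by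
  rw [Matrix.mul_assoc, bz_eq]
  rw [Matrix.mul_apply]
  rfl

/-- expansion of a vector along three vectors and the orthogonal vector -/
theorem expand {G : M4} (hG : G.transpose = G) (hanis : Anis G) (hdet : G.det ≠ 0)
    {a b c d r V : Z4} (hV : ∀ x, bz G V x = -G.det * d4 a b c x) (hd : d4 a b c d ≠ 0)
    {De e1 e2 e3 : ℤ}
    (hDe : De = bz G a a * (bz G b b * bz G c c - bz G b c ^ 2) -
      bz G a b * (bz G a b * bz G c c - bz G b c * bz G a c) +
      bz G a c * (bz G a b * bz G b c - bz G b b * bz G a c)) (hDe0 : De ≠ 0)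
    (h1 : De * bz G r a + e1 * bz G a a + e2 * bz G b a + e3 * bz G c a = 0)
    (h2 : De * bz G r b + e1 * bz G a b + e2 * bz G b b + e3 * bz G c b = 0)
    (h3 : De * bz G r c + e1 * bz G a c + e2 * bz G b c + e3 * bz G c c = 0) :
    De • r = (-d4 a b c r) • V - (e1 • a + e2 • b + e3 • c) ∧
      d4 a b c r ^ 2 * G.det = De * bz G r r + e1 * bz G r a + e2 * bz G r b + e3 * bz G r c := by
  have hM : ∀ v, d4 a b c v = (Matrix.of ![a, b, c, v]).det := fun v => rfl
  -- `(V, a) = 0`
  have hrep : ∀ x y z : Z4, (Matrix.of ![x, y, z, x]).det = 0 := by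
    intro x y z
    apply Matrix.det_zero_of_row_eq (i := 0) (j := 3) (by decide)
    rfl
  have hrep2 : ∀ x y z : Z4, (Matrix.of ![x, y, z, y]).det = 0 := by
    intro x y z
    apply Matrix.det_zero_of_row_eq (i := 1) (j := 3) (by decide)
    rfl
  have hrep3 : ∀ x y z : Z4, (Matrix.of ![x, y, z, z]).det = 0 := by
    intro x y z
    apply Matrix.det_zero_of_row_eq (i := 2) (j := 3) (by decide)
    rfl
  have hVa : bz G V a = 0 := by rw [hV, hM, hrep, mul_zero]
  have hVb : bz G V b = 0 := by rw [hV, hM, hrep2, mul_zero]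
  have hVc : bz G V c = 0 := by rw [hV, hM, hrep3, mul_zero]
  have hVV := hV V
  -- the Gram determinant
  have hgram : (Matrix.of ![a, b, c, V] * G * (Matrix.of ![a, b, c, V]).transpose).det =
      De * bz G V V := by
    have e : (Matrix.of ![a, b, c, V] * G * (Matrix.of ![a, b, c, V]).transpose) =
        !![bz G a a, bz G a b, bz G a c, 0; bz G a b, bz G b b, bz G b c, 0;
          bz G a c, bz G b c, bz G c c, 0; 0, 0, 0, bz G V V] := by
      ext i j
      rw [gram_apply]
      fin_cases i <;> fin_cases j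
      · rfl
      · rfl
      · rfl
      · exact (bz_comm hG _ _).trans hVa
      · exact bz_comm hG _ _
      · rfl
      · rfl
      · exact (bz_comm hG _ _).trans hVb
      · exact bz_comm hG _ _
      · exact bz_comm hG _ _
      · rfl
      · exact (bz_comm hG _ _).trans hVc
      · exact hVa
      · exact hVb
      · exact hVc
      · rfl
    rw [e, hDe]
    simp [Matrix.det_succ_row_zero, Fin.sum_univ_succ, Fin.succAbove]
    ring
  rw [Matrix.det_mul, Matrix.det_mul, Matrix.det_transpose, ← hM, hVV] at hgram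
  have hdV : d4 a b c V = -De := by
    have h4 : G.det * (d4 a b c V * (d4 a b c V + De)) = 0 := by linear_combination hgram
    rcases mul_eq_zero.1 h4 with h5 | h5
    · exact absurd h5 hdet
    · rcases mul_eq_zero.1 h5 with h6 | h6
      · exfalso
        rw [h6, mul_zero] at hVV
        have hV0 := hanis V hVV
        have h7 := hV d
        rw [hV0] at h7
        have h8 : bz G 0 d = 0 := by simp [bz]
        rw [h8] at h7
        rcases mul_eq_zero.1 h7.symm with h9 | h9
        · exact hdet (by linarith)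
        · exact hd h9
      · linarith
  -- the vector `z`
  have hz : De • r + (e1 • a + e2 • b + e3 • c) + (d4 a b c r) • V = 0 := by
    set z : Z4 := De • r + (e1 • a + e2 • b + e3 • c) + (d4 a b c r) • V with hzdef
    have hbz : ∀ x, bz G x z = De * bz G x r + (e1 * bz G x a + e2 * bz G x b + e3 * bz G x c) +
        d4 a b c r * bz G x V := by
      intro x
      rw [hzdef]
      simp only [bz_add, bz_smul]
    have z1 : bz G a z = 0 := by
      rw [hbz, bz_comm hG a V, hVa, bz_comm hG a r]
      rw [bz_comm hG b a, bz_comm hG c a] at h1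
      linear_combination h1
    have z2 : bz G b z = 0 := by
      rw [hbz, bz_comm hG b V, hVb, bz_comm hG b r, bz_comm hG b a]
      rw [bz_comm hG c b] at h2
      linear_combination h2
    have z3 : bz G c z = 0 := by
      rw [hbz, bz_comm hG c V, hVc, bz_comm hG c r, bz_comm hG c a, bz_comm hG c b]
      linear_combination h3
    have z4 : bz G V z = 0 := by
      rw [hbz, hVa, hVb, hVc, hV r, hV V, hdV]; ring
    have h5 : (Matrix.of ![a, b, c, V]).mulVec (G.mulVec z) = 0 := by
      funext i
      fin_cases i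
      · show a ⬝ᵥ G.mulVec z = 0
        rw [← bz_eq]; exact z1
      · show b ⬝ᵥ G.mulVec z = 0
        rw [← bz_eq]; exact z2
      · show c ⬝ᵥ G.mulVec z = 0
        rw [← bz_eq]; exact z3
      · show V ⬝ᵥ G.mulVec z = 0
        rw [← bz_eq]; exact z4
    have h6 : G.mulVec z = 0 := by
      apply Matrix.eq_zero_of_mulVec_eq_zero _ h5
      rw [← hM, hdV]
      exact neg_ne_zero.2 hDe0
    exact Matrix.eq_zero_of_mulVec_eq_zero hdet h6
  have hexp : De • r = (-d4 a b c r) • V - (e1 • a + e2 • b + e3 • c) := by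
    have : De • r = (De • r + (e1 • a + e2 • b + e3 • c) + (d4 a b c r) • V) +
        ((-d4 a b c r) • V - (e1 • a + e2 • b + e3 • c)) := by
      rw [neg_smul]; abel
    rw [hz, zero_add] at this
    exact this
  refine ⟨hexp, ?_⟩
  have h7 := congrArg (fun v => bz G r v) hexp
  simp only [bz_smul, sub_eq_add_neg, bz_add] at h7
  have h8 : bz G r (-(e1 • a + e2 • b + e3 • c)) = -(e1 * bz G r a + e2 * bz G r b + e3 * bz G r c) := by
    rw [← neg_one_smul ℤ, bz_smul, bz_add, bz_add, bz_smul, bz_smul, bz_smul]; ring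
  rw [h8, bz_comm hG r V, hV r] at h7
  linear_combination -h7

end Pool.Agent.Refl.H91
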