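import Pool.Agent.Helper91_Refl.FarK
import Pool.Agent.Helper91_Refl.FarL

/-!
REFL, module FARC.
-/

namespace Pool.Agent.Refl.H91

open Matrix

/-- the products of two roots with nonpositive product -/
theorem nn_spec {G : M4} (hG : G.transpose = G) {u v : Z4} (hu : IsRoot G u) (hv : IsRoot G v)
    {X Ku Kv : ℕ} (hX : bz G u v = -(X : ℤ)) (hKu : bz G u u = (Ku : ℤ))
    (hKv : bz G v v = (Kv : ℤ)) :
    ∃ s t : ℕ, 2 * X = s * Kv ∧ 2 * X = t * Ku ∧ nn G u v = s * t := by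
  have hKu0 : 0 < Ku := by have := hu.pos; rw [hKu] at this; exact_mod_cast this
  have hKv0 : 0 < Kv := by have := hv.pos; rw [hKv] at this; exact_mod_cast this
  have h1 : (Kv : ℤ) ∣ 2 * (X : ℤ) := by
    have := hv.dvd u
    rw [hKv, hX] at this
    have h2 : 2 * -(X : ℤ) = -(2 * X) := by ring
    rw [h2, dvd_neg] at this
    exact this
  have h2 : (Ku : ℤ) ∣ 2 * (X : ℤ) := by
    have := hu.dvd v
    rw [hKu, bz_comm hG, hX] at this
    have h2 : 2 * -(X : ℤ) = -(2 * X) := by ring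
    rw [h2, dvd_neg] at this
    exact this
  have h1' : Kv ∣ 2 * X := by exact_mod_cast h1
  have h2' : Ku ∣ 2 * X := by exact_mod_cast h2
  obtain ⟨s, hs⟩ := h1'
  obtain ⟨t, ht⟩ := h2'
  refine ⟨s, t, by rw [hs]; ring, by rw [ht]; ring, ?_⟩
  have e1 : 2 * bz G u v / bz G u u = -(t : ℤ) := by
    rw [hX, hKu]
    have : 2 * -(X : ℤ) = (Ku : ℤ) * -(t : ℤ) := by
      have : (2 : ℤ) * X = Ku * t := by exact_mod_cast ht
      linarith
    rw [this, Int.mul_ediv_cancel_left _ (by exact_mod_cast hKu0.ne')]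
  have e2 : 2 * bz G u v / bz G v v = -(s : ℤ) := by
    rw [hX, hKv]
    have : 2 * -(X : ℤ) = (Kv : ℤ) * -(s : ℤ) := by
      have : (2 : ℤ) * X = Kv * s := by exact_mod_cast hs
      linarith
    rw [this, Int.mul_ediv_cancel_left _ (by exact_mod_cast hKv0.ne')]
  unfold nn
  rw [e1, e2]
  have : -(t : ℤ) * -(s : ℤ) = ((s * t : ℕ) : ℤ) := by push_cast; ring
  rw [this, Int.toNat_natCast]

/-- the numbers of an edge -/
structure EdOK (E : K.Ed) (G : M4) (a b c : Z4) : Prop where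
  va : vI E.a = a
  vb : vI E.b = b
  vc : vI E.c = c
  Ka : (E.Ka : ℤ) = bz G a a
  Kb : (E.Kb : ℤ) = bz G b b
  Kc : (E.Kc : ℤ) = bz G c c
  p : (E.p : ℤ) = -bz G a b
  A11 : (E.A11 : ℤ) = bz G b b * bz G c c - bz G b c ^ 2
  A22 : (E.A22 : ℤ) = bz G a a * bz G c c - bz G a c ^ 2
  A33 : (E.A33 : ℤ) = bz G a a * bz G b b - bz G a b ^ 2
  A12 : (E.A12 : ℤ) = -bz G a b * bz G c c + bz G a c * bz G b c
  A13 : (E.A13 : ℤ) = -bz G a c * bz G b b + bz G a b * bz G b c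
  A23 : (E.A23 : ℤ) = -bz G b c * bz G a a + bz G a b * bz G a c
  De : (E.De : ℤ) = bz G a a * (bz G b b * bz G c c - bz G b c ^ 2) -
      bz G a b * (bz G a b * bz G c c - bz G b c * bz G a c) +
      bz G a c * (bz G a b * bz G b c - bz G b b * bz G a c)
  De0 : 0 < E.De
  dA : E.dA = G.det.natAbs

theorem g3_eq (G : M4) (a b x : Z4) : g3 G a b x x = bz G a a * (bz G b b * bz G x x - bz G b x ^ 2) -
    bz G a b * (bz G a b * bz G x x - bz G b x * bz G a x) +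
    bz G a x * (bz G a b * bz G b x - bz G b b * bz G a x) := by
  unfold g3
  rw [Matrix.det_fin_three]
  simp only [Matrix.of_apply, Matrix.cons_val]
  ring

/-- the contradiction -/
theorem core (hFE : FarEndStmt) (hVP : VertexPosStmt) (hDS : DetSignStmt) (hNorm : NormStmt)
    (hKN : KNumStmt) (hSq : SqKStmt) (hLin : LinAStmt) {A : K.I10} {m : ℕ} {f : Fin m → Z4}
    {O : R4} {i j k o : Fin m} {a b c d : K.I4} {kn : List K.I4} {ml : List ℕ} {l m' : ℕ}
    (hL : Lat (matI A)) (hR : Reduced (matI A)) (hC : Cham (matI A) m f O)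
    (hV : IsV (matI A) f i j k) (ha : vI a = f i) (hb : vI b = f j) (hc : vI c = f k)
    (hd : vI d = f o) (hoi : o ≠ i) (hoj : o ≠ j) (hok : o ≠ k)
    (hkn : ∀ x ∈ kn, ∃ h, vI x = f h) (hF : FarF (matI A) f i j k l m') {E : K.Ed}
    (hE : EdOK E (matI A) (f i) (f j) (f k)) (hEA : E.A = A)
    (hEV : E.V = K.ori A d (K.crs (K.mulI A a) (K.mulI A b) (K.mulI A c)))
    (h : K.farC E kn ml (nn (matI A) (f i) (f j)) (nn (matI A) (f i) (f k)) l m' = true) :
    False := by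
  obtain ⟨L1, L2, L3, L4, L5, L6, L7, L8, -, -⟩ := hLin
  obtain ⟨G, hGdef⟩ : ∃ G, G = matI A := ⟨_, rfl⟩
  rw [← hGdef] at hL hR hC hV hF hE h
  have hG := hL.symm
  have hdet := det_neg hL.sig
  -- the far end
  obtain ⟨r, hrk, hVr⟩ := hFE G m f O hL hC i j k hV
  have hri : r ≠ i := hVr.2.2.1.symm
  have hrj : r ≠ j := hVr.2.1.symm
  have hroot := hC.root r
  have hNkr := hF r hrk hVr
  obtain ⟨g2ij, g2ir, g2jr, g3r⟩ := hVP G m f O hL hC i j r hVr
  -- numbers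
  obtain ⟨K₀, hK₀⟩ : ∃ n : ℕ, bz G (f r) (f r) = (n : ℤ) :=
    ⟨_, (Int.toNat_of_nonneg hroot.pos.le).symm⟩
  have hK0 : 0 < K₀ := by have := hroot.pos; rw [hK₀] at this; exact_mod_cast this
  obtain ⟨X, hX⟩ : ∃ n : ℕ, bz G (f i) (f r) = -(n : ℤ) :=
    ⟨(-bz G (f i) (f r)).toNat, by
      rw [Int.toNat_of_nonneg (by have := hC.obt i r hri.symm; linarith)]; ring⟩
  obtain ⟨Y, hY⟩ : ∃ n : ℕ, bz G (f j) (f r) = -(n : ℤ) :=
    ⟨(-bz G (f j) (f r)).toNat, by
      rw [Int.toNat_of_nonneg (by have := hC.obt j r hrj.symm; linarith)]; ring⟩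
  obtain ⟨Z, hZ⟩ : ∃ n : ℕ, bz G (f k) (f r) = -(n : ℤ) :=
    ⟨(-bz G (f k) (f r)).toNat, by
      rw [Int.toNat_of_nonneg (by have := hC.obt k r hrk.symm; linarith)]; ring⟩
  have hKa0 : 0 < E.Ka := by
    have := (hC.root i).pos; rw [← hE.Ka] at this; exact_mod_cast this
  have hKb0 : 0 < E.Kb := by
    have := (hC.root j).pos; rw [← hE.Kb] at this; exact_mod_cast this
  have hKc0 : 0 < E.Kc := by
    have := (hC.root k).pos; rw [← hE.Kc] at this; exact_mod_cast this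
  obtain ⟨s1, t1, x1, x2, x3⟩ := nn_spec hG (hC.root i) hroot hX hE.Ka.symm hK₀
  obtain ⟨s2, t2, y1, y2, y3⟩ := nn_spec hG (hC.root j) hroot hY hE.Kb.symm hK₀
  obtain ⟨s3, t3, z1, z2, z3⟩ := nn_spec hG (hC.root k) hroot hZ hE.Kc.symm hK₀
  -- the numbers are smaller than four
  have hsm : ∀ (Ku X s t : ℕ) (u : Z4), 0 < Ku → bz G u u = (Ku : ℤ) → bz G u (f r) = -(X : ℤ) →
      0 < g2 G u (f r) → 2 * X = s * K₀ → 2 * X = t * Ku → s * t < 4 := by
    intro Ku X s t u hKu h1 h2 h3 h4 h5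
    unfold g2 at h3
    rw [h1, h2, hK₀] at h3
    have h6 : X * X < Ku * K₀ := by
      have : ((X * X : ℕ) : ℤ) < ((Ku * K₀ : ℕ) : ℤ) := by push_cast; nlinarith
      exact_mod_cast this
    by_contra h7
    push Not at h7
    have h8 : (2 * X) * (2 * X) = (s * t) * (Ku * K₀) := by
      calc (2 * X) * (2 * X) = (s * K₀) * (t * Ku) := by rw [← h4, ← h5]
        _ = _ := by ring
    have h9 : 4 * (Ku * K₀) ≤ (s * t) * (Ku * K₀) := Nat.mul_le_mul_right _ h7
    nlinarith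
  -- the check for the norm
  unfold K.farC at h
  rw [ands_iff, beq_iff] at h
  obtain ⟨hprl, h⟩ := h
  have h1 := hNorm G (f r) ml hL hR hroot (by rw [hprl, hE.dA]) _ h
  rw [hK₀, Int.natAbs_natCast] at h1
  have h2 := opt_spec h1 hK0 hKa0 x1 x2 (hsm E.Ka X s1 t1 (f i) hKa0 hE.Ka.symm hX g2ir x1 x2)
  have h3 := opt_spec h2 hK0 hKb0 y1 y2 (hsm E.Kb Y s2 t2 (f j) hKb0 hE.Kb.symm hY g2jr y1 y2)
  -- the mirror meets the line
  have homg : K.omg E K₀ X Y ≠ 0 := by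
    have e : (0 : ℤ) < ((K₀ * E.A33 : ℕ) : ℤ) - ((E.Kb * X * X + 2 * (E.p * X * Y) +
        E.Ka * Y * Y : ℕ) : ℤ) := by
      rw [g3_eq, hX, hY, hK₀] at g3r
      push_cast
      rw [hE.A33, hE.Kb, hE.p, hE.Ka]
      linear_combination g3r
    have e' : E.Kb * X * X + 2 * (E.p * X * Y) + E.Ka * Y * Y < K₀ * E.A33 := by
      have : ((E.Kb * X * X + 2 * (E.p * X * Y) + E.Ka * Y * Y : ℕ) : ℤ) <
        ((K₀ * E.A33 : ℕ) : ℤ) := by linarith
      exact_mod_cast this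
    show K₀ * E.A33 - (E.Kb * X * X + 2 * (E.p * X * Y) + E.Ka * Y * Y) ≠ 0
    omega
  simp only [fc_eq] at h3
  rw [rec_nat, if_neg homg] at h3
  rw [hKN.1, ← x3, ← y3] at h3
  obtain ⟨B, hB⟩ : ∃ B, B = farBN (nn G (f i) (f j)) (nn G (f i) (f k)) (nn G (f i) (f r))
    (nn G (f j) (f r)) l m' := ⟨_, rfl⟩
  rw [← hB] at h3 hNkr
  -- the step
  obtain ⟨hst0, t, ht⟩ := stp_spec (Z := Z) hK0 hKc0 ⟨s3, by rw [z1]; ring⟩ ⟨t3, by rw [z2]; ring⟩
  obtain ⟨st, hst⟩ : ∃ st, st = K.stp K₀ E.Kc := ⟨_, rfl⟩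
  rw [← hst] at h3 hst0 ht
  have hts : t * t ≤ B * (K₀ * E.Kc) / (4 * (st * st)) := by
    rw [Nat.le_div_iff_mul_le (by positivity)]
    have e1 : (2 * Z) * (2 * Z) = nn G (f k) (f r) * (K₀ * E.Kc) := by
      rw [z3]
      calc (2 * Z) * (2 * Z) = (s3 * K₀) * (t3 * E.Kc) := by rw [← z1, ← z2]
        _ = _ := by ring
    calc t * t * (4 * (st * st)) = (2 * (t * st)) * (2 * (t * st)) := by ring
      _ = (2 * Z) * (2 * Z) := by rw [← ht]
      _ = nn G (f k) (f r) * (K₀ * E.Kc) := e1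
      _ ≤ B * (K₀ * E.Kc) := Nat.mul_le_mul_right _ hNkr
  -- the vector `V`
  have hgram' : ∀ y : K.I4, K.dotI (K.crs (K.mulI A a) (K.mulI A b) (K.mulI A c)) (K.mulI A y) =
      -G.det * d4 (f i) (f j) (f k) (vI y) := by
    intro y
    rw [L6, L4, L2, L2, L2, L2, ha, hb, hc, ← hGdef, neg_mul]
    congr 1
    have e : Matrix.of ![G.mulVec (f i), G.mulVec (f j), G.mulVec (f k), G.mulVec (vI y)] =
        Matrix.of ![f i, f j, f k, vI y] * G := by
      ext p q
      rw [Matrix.mul_apply]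
      have hs : ∀ x : Z4, G.mulVec x q = ∑ j, x j * G j q := by
        intro x
        rw [Matrix.mulVec, dotProduct]
        apply Finset.sum_congr rfl
        intro j _
        have : G j q = G q j := congrFun (congrFun hG q) j
        rw [this]; ring
      fin_cases p
      · exact hs _
      · exact hs _
      · exact hs _
      · exact hs _
    show (Matrix.of ![G.mulVec (f i), G.mulVec (f j), G.mulVec (f k), G.mulVec (vI y)]).det = _
    rw [e, Matrix.det_mul, mul_comm]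
    rfl
  have hgram : ∀ x, bz G (vI (K.crs (K.mulI A a) (K.mulI A b) (K.mulI A c))) x =
      -G.det * d4 (f i) (f j) (f k) x := by
    intro x
    obtain ⟨y, hy⟩ : ∃ y : K.I4, vI y = x := ⟨⟨x 0, x 1, x 2, x 3⟩, by
      funext z
      fin_cases z <;> rfl⟩
    have := hgram' y
    rw [L3, ← hGdef, hy] at this
    exact this
  have hdne : ∀ x : Fin m, x ≠ i → x ≠ j → x ≠ k → d4 (f i) (f j) (f k) (f x) ≠ 0 := by
    intro x h1 h2 h3 h4
    have := hDS G m f O hL hC i j k x x hV h1 h2 h3 h1 h2 h3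
    rw [h4] at this
    simp at this
  have hsign := hDS G m f O hL hC i j k o r hV hoi hoj hok hri hrj hrk
  obtain ⟨hexp, hnum⟩ := expand hG hL.anis hdet.ne hgram (hdne o hoi hoj hok) (r := f r)
    (De := E.De) (e1 := ((E.A11 * X + E.A12 * Y + E.A13 * Z : ℕ) : ℤ))
    (e2 := ((E.A12 * X + E.A22 * Y + E.A23 * Z : ℕ) : ℤ))
    (e3 := ((E.A13 * X + E.A23 * Y + E.A33 * Z : ℕ) : ℤ)) hE.De
    (by exact_mod_cast hE.De0.ne')
    (by
      push_cast
      rw [hE.De, hE.A11, hE.A12, hE.A13, hE.A22, hE.A23, hE.A33, bz_comm hG (f r), hX,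
        bz_comm hG (f j) (f i), bz_comm hG (f k) (f i)]
      ring)
    (by
      push_cast
      rw [hE.De, hE.A11, hE.A12, hE.A13, hE.A22, hE.A23, hE.A33, bz_comm hG (f r), hY,
        bz_comm hG (f k) (f j)]
      ring)
    (by
      push_cast
      rw [hE.De, hE.A11, hE.A12, hE.A13, hE.A22, hE.A23, hE.A33, bz_comm hG (f r), hZ]
      ring)
  obtain ⟨κ, hκ⟩ : ∃ κ, κ = d4 (f i) (f j) (f k) (f r) := ⟨_, rfl⟩
  rw [← hκ] at hexp hnum hsign
  have hκ0 : κ ≠ 0 := by rw [hκ]; exact hdne r hri hrj hrk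
  -- the orientation
  have hVm : ((κ.natAbs : ℕ) : ℤ) • vI E.V =
      (-κ) • vI (K.crs (K.mulI A a) (K.mulI A b) (K.mulI A c)) := by
    have h4 := hgram' d
    rw [hd] at h4
    have hneg : ∀ v : K.I4, vI (K.negI v) = -vI v := by
      intro v
      funext z
      fin_cases z <;> rfl
    rw [hEV]
    unfold K.ori
    rw [rec_bool, h4]
    rcases lt_or_gt_of_ne (hdne o hoi hoj hok) with h5 | h5
    · rw [if_neg]
      · have h6 : κ < 0 := by
          by_contra h7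
          push Not at h7
          linarith [mul_nonpos_of_nonpos_of_nonneg h5.le h7]
        rw [Int.natCast_natAbs, abs_of_neg h6]
      · rw [blt_iff]
        have : 0 < -G.det := by linarith
        have := mul_neg_of_pos_of_neg this h5
        linarith
    · rw [if_pos]
      · have h6 : 0 < κ := by
          by_contra h7
          push Not at h7
          linarith [mul_nonpos_of_nonneg_of_nonpos h5.le h7]
        rw [Int.natCast_natAbs, abs_of_pos h6, hneg, smul_neg, neg_smul]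
      · rw [blt_iff]
        have : 0 < -G.det := by linarith
        exact mul_pos this h5
  have hr : ∃ r' : K.I4, vI r' = f r := ⟨⟨f r 0, f r 1, f r 2, f r 3⟩, by
    funext x
    fin_cases x <;> rfl⟩
  obtain ⟨r', hr'⟩ := hr
  -- the quadratic function
  have hquad : E.A33 * (t * st) ^ 2 + 2 * (E.A13 * X + E.A23 * Y) * (t * st) + K.c00 E X Y =
      K₀ * E.De + κ.natAbs * κ.natAbs * E.dA := by
    rw [c00_eq, ← ht]
    have e1 : ((E.dA : ℕ) : ℤ) = -G.det := by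
      rw [hE.dA, Int.natCast_natAbs, abs_of_neg hdet]
    have e2 : ((κ.natAbs : ℕ) : ℤ) * ((κ.natAbs : ℕ) : ℤ) = κ ^ 2 := by
      rw [Int.natCast_natAbs, ← sq, sq_abs]
    have e3 : ((E.A33 * Z ^ 2 + 2 * (E.A13 * X + E.A23 * Y) * Z + (E.A11 * X * X +
        (E.A22 * Y * Y + 2 * (E.A12 * X * Y))) : ℕ) : ℤ) =
        ((K₀ * E.De + κ.natAbs * κ.natAbs * E.dA : ℕ) : ℤ) := by
      push_cast
      rw [Int.natCast_natAbs] at e2
      rw [e1, e2]
      rw [bz_comm hG (f r) (f i), bz_comm hG (f r) (f j), bz_comm hG (f r) (f k), hX, hY, hZ,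
        hK₀] at hnum
      push_cast at hnum
      linear_combination hnum
    exact_mod_cast e3
  have hdA0 : 0 < E.dA := by
    rw [hE.dA]; exact Int.natAbs_pos.2 hdet.ne
  have hκp : 0 < κ.natAbs := Int.natAbs_pos.2 hκ0
  -- a family contains the root
  have hfam : ∀ T, t < T → K.fam E K₀ X Y st T (fun _ _ r => K.anyPos E.A r kn) = true → False := by
    intro T hT hfam
    have h5 := fam_spec hSq hfam hdA0 hT hκp hquad
    rw [← ht] at h5
    have h6 := cand_spec h5 hE.De0 r' (by rw [hr', hexp, hVm, hE.va, hE.vb, hE.vc]) (by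
      rw [hEA, L8 A K₀ r' hK0, hr', ← hGdef]
      refine ⟨?_, hroot.prim⟩
      intro x
      have := hroot.dvd x
      rw [hK₀, bz_comm hG] at this
      exact this)
    obtain ⟨g, hg, hg1, hg2⟩ := anyPos_spec h6
    obtain ⟨x, hx⟩ := hkn g hg
    rw [hEA, L1, L2, hr', hx, ← hGdef] at hg2
    have h7 : (G.mulVec (f r)) ⬝ᵥ f x = bz G (f x) (f r) := by
      rw [bz_eq, dotProduct_comm]
    rw [h7] at hg2
    have h8 : x ≠ r := by
      rintro rfl
      have : K.eqI g r' = true := (L7 g r').2 (by rw [hx, hr'])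
      rw [this] at hg1
      exact absurd hg1 (by simp)
    have := hC.obt x r h8
    linarith
  -- the two cases
  have hx4 : Nat.div (Nat.mul B (Nat.mul K₀ E.Kc)) (Nat.mul 4 (Nat.mul st st)) =
    B * (K₀ * E.Kc) / (4 * (st * st)) := rfl
  rw [hx4, rec_nat] at h3
  split_ifs at h3 with h5
  · rw [h5] at hts
    have ht0 : t = 0 := mul_self_eq_zero.1 (Nat.le_zero.1 hts)
    rw [rec_bool] at h3
    split_ifs at h3 with h6
    · have h7 : K.c00 E X Y ≤ K₀ * E.De := Nat.le_of_ble_eq_true h6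
      rw [ht0] at hquad
      have : 0 < κ.natAbs * κ.natAbs * E.dA := by positivity
      have h8 : K.c00 E X Y = K₀ * E.De + κ.natAbs * κ.natAbs * E.dA := by
        rw [← hquad]; ring
      exact absurd h7 (not_le.2 (by rw [h8]; exact Nat.lt_add_of_pos_right this))
    · exact hfam 1 (by rw [ht0]; exact Nat.zero_lt_one) h3
  · rw [hSq] at h3
    exact hfam _ (Nat.lt_succ_of_le (Nat.le_sqrt.2 hts)) h3

theorem cast_sub_of {x y : ℕ} {z : ℤ} (h : (x : ℤ) - y = z) (hz : 0 ≤ z) :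
    ((Nat.sub x y : ℕ) : ℤ) = z := by
  show ((x - y : ℕ) : ℤ) = z
  rw [Nat.cast_sub (by exact_mod_cast (by linarith : (y : ℤ) ≤ x))]
  exact h

/-- FARC -/
theorem farC (hFE : FarEndStmt) (hVP : VertexPosStmt) (hDS : DetSignStmt) (hNorm : NormStmt)
    (hKN : KNumStmt) (hSq : SqKStmt) (hLin : LinAStmt) : FarCStmt := by
  intro A m f O i j k o a b c d kn ml l m' hL hR hC hV ha hb hc hd hoi hoj hok hkn hF
  by_contra h
  rw [Bool.not_eq_false] at h
  obtain ⟨L1, L2, -, -, L5, -, -, -, -, -⟩ := id hLin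
  obtain ⟨g2ij, g2ik, g2jk, g3k⟩ := hVP (matI A) m f O hL hC i j k hV
  have hG := hL.symm
  rw [g3_eq] at g3k
  unfold g2 at g2ij g2ik g2jk
  have hdot : ∀ x y : K.I4, K.dotI (K.mulI A x) y = bz (matI A) (vI x) (vI y) := by
    intro x y
    rw [L1, L2, bz_comm hG, bz_eq, dotProduct_comm]
  unfold K.mkEd K.nabb at h
  simp only [fc_eq] at h
  have nKa : ((Int.natAbs (K.dotI (K.mulI A a) a) : ℕ) : ℤ) = bz (matI A) (f i) (f i) := by
    rw [hdot, ha, Int.natCast_natAbs, abs_of_pos (hC.root i).pos]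
  have nKb : ((Int.natAbs (K.dotI (K.mulI A b) b) : ℕ) : ℤ) = bz (matI A) (f j) (f j) := by
    rw [hdot, hb, Int.natCast_natAbs, abs_of_pos (hC.root j).pos]
  have nKc : ((Int.natAbs (K.dotI (K.mulI A c) c) : ℕ) : ℤ) = bz (matI A) (f k) (f k) := by
    rw [hdot, hc, Int.natCast_natAbs, abs_of_pos (hC.root k).pos]
  have np : ((Int.natAbs (K.dotI (K.mulI A a) b) : ℕ) : ℤ) = -bz (matI A) (f i) (f j) := by
    rw [hdot, ha, hb, Int.natCast_natAbs, abs_of_nonpos (hC.obt i j hV.1)]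
  have nq : ((Int.natAbs (K.dotI (K.mulI A a) c) : ℕ) : ℤ) = -bz (matI A) (f i) (f k) := by
    rw [hdot, ha, hc, Int.natCast_natAbs, abs_of_nonpos (hC.obt i k hV.2.2.1)]
  have nr : ((Int.natAbs (K.dotI (K.mulI A b) c) : ℕ) : ℤ) = -bz (matI A) (f j) (f k) := by
    rw [hdot, hb, hc, Int.natCast_natAbs, abs_of_nonpos (hC.obt j k hV.2.1)]
  generalize Int.natAbs (K.dotI (K.mulI A a) a) = Ka at h nKa
  generalize Int.natAbs (K.dotI (K.mulI A b) b) = Kb at h nKb
  generalize Int.natAbs (K.dotI (K.mulI A c) c) = Kc at h nKc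
  generalize Int.natAbs (K.dotI (K.mulI A a) b) = p at h np
  generalize Int.natAbs (K.dotI (K.mulI A a) c) = q at h nq
  generalize Int.natAbs (K.dotI (K.mulI A b) c) = r at h nr
  have nA11 : ((Nat.sub (Nat.mul Kb Kc) (Nat.mul r r) : ℕ) : ℤ) =
      bz (matI A) (f j) (f j) * bz (matI A) (f k) (f k) - bz (matI A) (f j) (f k) ^ 2 := by
    apply cast_sub_of _ g2jk.le
    show ((Kb * Kc : ℕ) : ℤ) - ((r * r : ℕ) : ℤ) = _
    push_cast
    rw [nKb, nKc, nr]; ring
  have nA22 : ((Nat.sub (Nat.mul Ka Kc) (Nat.mul q q) : ℕ) : ℤ) =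
      bz (matI A) (f i) (f i) * bz (matI A) (f k) (f k) - bz (matI A) (f i) (f k) ^ 2 := by
    apply cast_sub_of _ g2ik.le
    show ((Ka * Kc : ℕ) : ℤ) - ((q * q : ℕ) : ℤ) = _
    push_cast
    rw [nKa, nKc, nq]; ring
  have nA33 : ((Nat.sub (Nat.mul Ka Kb) (Nat.mul p p) : ℕ) : ℤ) =
      bz (matI A) (f i) (f i) * bz (matI A) (f j) (f j) - bz (matI A) (f i) (f j) ^ 2 := by
    apply cast_sub_of _ g2ij.le
    show ((Ka * Kb : ℕ) : ℤ) - ((p * p : ℕ) : ℤ) = _
    push_cast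
    rw [nKa, nKb, np]; ring
  have nA12 : ((Nat.add (Nat.mul p Kc) (Nat.mul q r) : ℕ) : ℤ) =
      -bz (matI A) (f i) (f j) * bz (matI A) (f k) (f k) +
        bz (matI A) (f i) (f k) * bz (matI A) (f j) (f k) := by
    show ((p * Kc + q * r : ℕ) : ℤ) = _
    push_cast
    rw [nKc, np, nq, nr]; ring
  have nA13 : ((Nat.add (Nat.mul q Kb) (Nat.mul p r) : ℕ) : ℤ) =
      -bz (matI A) (f i) (f k) * bz (matI A) (f j) (f j) +
        bz (matI A) (f i) (f j) * bz (matI A) (f j) (f k) := by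
    show ((q * Kb + p * r : ℕ) : ℤ) = _
    push_cast
    rw [nKb, np, nq, nr]; ring
  have nA23 : ((Nat.add (Nat.mul r Ka) (Nat.mul p q) : ℕ) : ℤ) =
      -bz (matI A) (f j) (f k) * bz (matI A) (f i) (f i) +
        bz (matI A) (f i) (f j) * bz (matI A) (f i) (f k) := by
    show ((r * Ka + p * q : ℕ) : ℤ) = _
    push_cast
    rw [nKa, np, nq, nr]; ring
  generalize Nat.sub (Nat.mul Kb Kc) (Nat.mul r r) = A11 at h nA11
  generalize Nat.sub (Nat.mul Ka Kc) (Nat.mul q q) = A22 at h nA22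
  generalize Nat.sub (Nat.mul Ka Kb) (Nat.mul p p) = A33 at h nA33
  generalize Nat.add (Nat.mul p Kc) (Nat.mul q r) = A12 at h nA12
  generalize Nat.add (Nat.mul q Kb) (Nat.mul p r) = A13 at h nA13
  generalize Nat.add (Nat.mul r Ka) (Nat.mul p q) = A23 at h nA23
  have nDe : ((Nat.sub (Nat.mul Ka A11) (Nat.add (Nat.mul p A12) (Nat.mul q A13)) : ℕ) : ℤ) =
      bz (matI A) (f i) (f i) * (bz (matI A) (f j) (f j) * bz (matI A) (f k) (f k) -
        bz (matI A) (f j) (f k) ^ 2) - bz (matI A) (f i) (f j) * (bz (matI A) (f i) (f j) *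
        bz (matI A) (f k) (f k) - bz (matI A) (f j) (f k) * bz (matI A) (f i) (f k)) +
        bz (matI A) (f i) (f k) * (bz (matI A) (f i) (f j) * bz (matI A) (f j) (f k) -
        bz (matI A) (f j) (f j) * bz (matI A) (f i) (f k)) := by
    apply cast_sub_of _ g3k.le
    show ((Ka * A11 : ℕ) : ℤ) - ((p * A12 + q * A13 : ℕ) : ℤ) = _
    push_cast
    rw [nKa, nA11, np, nq, nA12, nA13]; ring
  generalize Nat.sub (Nat.mul Ka A11) (Nat.add (Nat.mul p A12) (Nat.mul q A13)) = De at h nDe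
  refine core hFE hVP hDS hNorm hKN hSq hLin hL hR hC hV ha hb hc hd hoi hoj hok hkn hF
    (E := _) ?_ rfl rfl h
  constructor
  · exact ha
  · exact hb
  · exact hc
  · exact nKa
  · exact nKb
  · exact nKc
  · exact np
  · exact nA11
  · exact nA22
  · exact nA33
  · exact nA12
  · exact nA13
  · exact nA23
  · exact nDe
  · have h1 : (0 : ℤ) < (De : ℤ) := by rw [nDe]; exact g3k
    exact_mod_cast h1
  · show Int.natAbs (K.detA A) = _
    rw [L5]

end Pool.Agent.Refl.H91
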