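import Pool.Agent.Helper23_Refl.StmtC2

/-!
REFL, module FARC: the kernel functions of `farC`.
-/

namespace Pool.Agent.Refl.H91

open Matrix

theorem fc_eq {α : Type} (n : ℕ) (f : ℕ → α) : K.fc n f = f n := by
  cases n <;> rfl

theorem ands_iff {a b : Bool} : K.ands a b = true ↔ a = true ∧ b = true := by
  cases a <;> cases b <;> simp [K.ands]

theorem rec_bool {α : Type} (b : Bool) (x y : α) :
    (Bool.rec x y b : α) = if b = true then y else x := by
  cases b <;> rfl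

theorem rec_nat {α : Type} (n : ℕ) (x : α) (f : ℕ → α) :
    (Nat.rec x (fun m _ => f m) n : α) = if n = 0 then x else f (n - 1) := by
  cases n <;> rfl

theorem beq_iff {a b : ℕ} : Nat.beq a b = true ↔ a = b :=
  ⟨Nat.eq_of_beq_eq_true, fun h => by rw [h]; exact Nat.beq_refl b⟩

/-! ### squares modulo 5040 -/

theorem smask_tab : ∀ a < 70, ∀ b < 72,
    (K.smask >>> (((72 * a + b) * (72 * a + b)) % 5040)) % 2 = 1 := by
  decide +kernel

theorem smask_sq (m : ℕ) :
    Nat.beq (Nat.mod (Nat.shiftRight K.smask (Nat.mod (m * m) 5040)) 2) 1 = true := by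
  rw [beq_iff]
  have h1 : m * m % 5040 = (72 * (m % 5040 / 72) + m % 5040 % 72) *
      (72 * (m % 5040 / 72) + m % 5040 % 72) % 5040 := by
    rw [Nat.div_add_mod, ← Nat.mul_mod]
  have h2 := smask_tab (m % 5040 / 72) (by omega) (m % 5040 % 72) (by omega)
  rw [← h1] at h2
  exact h2

/-! ### the options for the products -/

theorem opt1_spec {f : ℕ → ℕ → Bool} {M N X : ℕ} (h : K.opt1 f M N = true) (hX : 2 * X = M) :
    f X N = true := by
  unfold K.opt1 at h
  rw [rec_bool, if_pos] at h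
  · have : Nat.div M 2 = X := by
      show M / 2 = X
      omega
    rwa [this] at h
  · rw [beq_iff]
    show M % 2 = 0
    omega

theorem opt_spec {K₀ Ka : ℕ} {f : ℕ → ℕ → Bool} (h : K.opt K₀ Ka f = true) (hK : 0 < K₀)
    (hKa : 0 < Ka) {X s t : ℕ} (h1 : 2 * X = s * K₀) (h2 : 2 * X = t * Ka) (h3 : s * t < 4) :
    f X (s * t) = true := by
  unfold K.opt at h
  rw [ands_iff] at h
  obtain ⟨h0, h⟩ := h
  simp only [rec_bool, beq_iff] at h
  rcases Nat.eq_zero_or_pos s with hs | hs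
  · subst hs
    have : X = 0 := by omega
    subst this
    rw [Nat.zero_mul]; exact h0
  rcases Nat.eq_zero_or_pos t with ht | ht
  · subst ht
    have : X = 0 := by omega
    subst this
    rw [Nat.mul_zero]; exact h0
  have hs4 : s < 4 := by nlinarith
  have ht4 : t < 4 := by nlinarith
  have e3 : Nat.mul 3 Ka = 3 * Ka := rfl
  have e2 : Nat.mul 2 Ka = 2 * Ka := rfl
  have e3' : Nat.mul 3 K₀ = 3 * K₀ := rfl
  have e2' : Nat.mul 2 K₀ = 2 * K₀ := rfl
  rw [e3, e2, e3', e2'] at h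
  interval_cases s <;> interval_cases t <;> first
    | omega
    | (rw [if_pos (by omega)] at h; exact opt1_spec h (by omega))
    | (rw [if_neg (by omega), if_pos (by omega)] at h; exact opt1_spec h (by omega))
    | (rw [if_neg (by omega), if_neg (by omega), if_pos (by omega)] at h
       exact opt1_spec h (by omega))
    | (rw [if_neg (by omega), if_neg (by omega), if_neg (by omega), if_pos (by omega)] at h
       exact opt1_spec h (by omega))
    | (rw [if_neg (by omega), if_neg (by omega), if_neg (by omega), if_neg (by omega),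
        if_pos (by omega)] at h
       exact opt1_spec h (by omega))

/-! ### the step -/

theorem stp_spec {K₀ Kc Z : ℕ} (hK : 0 < K₀) (hKc : 0 < Kc) (h1 : K₀ ∣ 2 * Z) (h2 : Kc ∣ 2 * Z) :
    0 < K.stp K₀ Kc ∧ ∃ t, Z = t * K.stp K₀ Kc := by
  have hl : Nat.lcm K₀ Kc ∣ 2 * Z := Nat.lcm_dvd h1 h2
  have hlpos : 0 < Nat.lcm K₀ Kc := Nat.lcm_pos hK hKc
  have e : Nat.mul (Nat.div K₀ (Nat.gcd K₀ Kc)) Kc = Nat.lcm K₀ Kc := by
    show K₀ / Nat.gcd K₀ Kc * Kc = Nat.lcm K₀ Kc
    rw [Nat.lcm, Nat.div_mul_right_comm (Nat.gcd_dvd_left K₀ Kc)]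
  unfold K.stp
  rw [fc_eq, e, rec_bool]
  split_ifs with h
  · rw [beq_iff] at h
    have h' : Nat.lcm K₀ Kc % 2 = 0 := h
    have e2 : Nat.div (Nat.lcm K₀ Kc) 2 = Nat.lcm K₀ Kc / 2 := rfl
    rw [e2]
    refine ⟨by omega, ?_⟩
    obtain ⟨t, ht⟩ := hl
    refine ⟨t, ?_⟩
    have : Nat.lcm K₀ Kc = 2 * (Nat.lcm K₀ Kc / 2) := by omega
    rw [this] at ht
    nlinarith
  · rw [beq_iff] at h
    have h' : ¬ Nat.lcm K₀ Kc % 2 = 0 := h
    refine ⟨hlpos, ?_⟩
    have h3 : Nat.Coprime (Nat.lcm K₀ Kc) 2 := by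
      rw [Nat.coprime_comm, Nat.coprime_two_left, Nat.odd_iff]
      omega
    obtain ⟨t, ht⟩ := h3.dvd_of_dvd_mul_left hl
    exact ⟨t, by rw [ht]; ring⟩

/-! ### the loop -/

theorem lpZ_spec {F KD dA : ℕ} {f : ℕ → ℕ → Bool} {n e : ℕ → ℕ}
    (hn : ∀ t, n (t + 1) = n t + e t) (he : ∀ t, e (t + 1) = e t + F) :
    ∀ k t, K.lpZ F KD dA f k t (n t) (e t) = true → ∀ j, t ≤ j → j < t + k →
      ∀ q, n j = KD + q * dA → 0 < dA →
      Nat.beq (Nat.mod (Nat.shiftRight K.smask (Nat.mod q 5040)) 2) 1 = true →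
      f j q = true := by
  intro k
  induction k with
  | zero => intro t _ j h1 h2; omega
  | succ k ih =>
    intro t h j h1 h2 q hq hdA hsm
    have hstep : K.lpZ F KD dA f (k + 1) t (n t) (e t) =
        Bool.rec (K.lpZ F KD dA f k (t + 1) (n (t + 1)) (e (t + 1)))
          (Bool.rec (K.lpZ F KD dA f k (t + 1) (n (t + 1)) (e (t + 1)))
            (K.ands (f t (Nat.div (Nat.sub (n t) KD) dA))
              (K.lpZ F KD dA f k (t + 1) (n (t + 1)) (e (t + 1))))
            (Nat.beq (Nat.mod (Nat.shiftRight K.smask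
              (Nat.mod (Nat.div (Nat.sub (n t) KD) dA) 5040)) 2) 1))
          (Nat.beq (Nat.mod (Nat.sub (n t) KD) dA) 0) := by
      rw [hn, he]
      unfold K.lpZ
      simp only [fc_eq]
      rfl
    rw [hstep, rec_bool, rec_bool] at h
    rcases Nat.eq_or_lt_of_le h1 with h3 | h3
    · subst h3
      have e1 : Nat.sub (n t) KD = q * dA := by
        show n t - KD = q * dA
        rw [hq]; omega
      have e2 : Nat.mod (Nat.sub (n t) KD) dA = 0 := by
        rw [e1]; exact Nat.mul_mod_left q dA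
      have e3 : Nat.div (Nat.sub (n t) KD) dA = q := by
        rw [e1]; exact Nat.mul_div_cancel q hdA
      rw [e3, if_pos (by rw [beq_iff]; exact e2), if_pos hsm, ands_iff] at h
      exact h.1
    · have h4 : K.lpZ F KD dA f k (t + 1) (n (t + 1)) (e (t + 1)) = true := by
        split_ifs at h with h5 h6
        · exact (ands_iff.1 h).2
        · exact h
        · exact h
      exact ih (t + 1) h4 j h3 (by omega) q hq hdA hsm

/-- value of `c00` -/
theorem c00_eq (E : K.Ed) (X Y : ℕ) :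
    K.c00 E X Y = E.A11 * X * X + (E.A22 * Y * Y + 2 * (E.A12 * X * Y)) := rfl

theorem fam_spec (hsq : SqKStmt) {E : K.Ed} {K₀ X Y step T : ℕ} {f : ℕ → ℕ → K.I4 → Bool}
    (h : K.fam E K₀ X Y step T f = true) (hdA : 0 < E.dA) {t m : ℕ} (ht : t < T) (hm : 0 < m)
    (hq : E.A33 * (t * step) ^ 2 + 2 * (E.A13 * X + E.A23 * Y) * (t * step) + K.c00 E X Y =
      K₀ * E.De + m * m * E.dA) :
    K.cand E K₀ X Y (t * step) m (f (t * step) m) = true := by
  have h' : K.lpZ (2 * (E.A33 * step * step)) (K₀ * E.De) E.dA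
      (fun t q => K.fc q fun q => Nat.rec true (fun _ _ => K.fc (K.sqK q) fun m =>
        Bool.rec true (K.fc (Nat.mul t step) fun Z => K.cand E K₀ X Y Z m (f Z m))
          (Nat.beq (Nat.mul m m) q)) q) T 0 (K.c00 E X Y)
      (2 * (E.A33 * step * step) / 2 + 2 * ((E.A13 * X + E.A23 * Y) * step)) = true := by
    unfold K.fam at h
    simp only [fc_eq] at h ⊢
    exact h
  have e1 : 2 * (E.A33 * step * step) / 2 = E.A33 * step * step :=
    Nat.mul_div_cancel_left _ (by norm_num)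
  rw [e1] at h'
  have h2 := lpZ_spec (F := 2 * (E.A33 * step * step)) (KD := K₀ * E.De) (dA := E.dA)
    (n := fun t => E.A33 * (t * step) ^ 2 + 2 * (E.A13 * X + E.A23 * Y) * (t * step) +
      K.c00 E X Y)
    (e := fun t => E.A33 * step * step * (2 * t + 1) + 2 * ((E.A13 * X + E.A23 * Y) * step))
    (f := (fun t q => K.fc q fun q => Nat.rec true (fun _ _ => K.fc (K.sqK q) fun m =>
        Bool.rec true (K.fc (Nat.mul t step) fun Z => K.cand E K₀ X Y Z m (f Z m))
          (Nat.beq (Nat.mul m m) q)) q))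
    (by intro t; ring) (by intro t; ring) T 0 (by
      simp only [Nat.zero_mul, Nat.mul_zero, Nat.zero_add, Nat.mul_one]
      norm_num
      exact h') t (Nat.zero_le _) (by omega) (m * m) (by linarith) hdA (smask_sq m)
  simp only [fc_eq] at h2
  rw [rec_nat, if_neg (by positivity), hsq (m * m), Nat.sqrt_eq, rec_bool, if_pos] at h2
  · exact h2
  · rw [beq_iff]; rfl

theorem dvdI_iff {n : ℕ} {x : ℤ} : K.dvdI n x = true ↔ (n : ℤ) ∣ x := by
  unfold K.dvdI
  rw [beq_iff, Int.natCast_dvd]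
  exact Nat.dvd_iff_mod_eq_zero.symm

theorem divI_eq {d : ℕ} (hd : 0 < d) (y : ℤ) : K.divI (d * y) d = y := by
  rcases Int.natAbs_eq y with h | h
  · rw [h]
    have : ((d : ℤ) * ((y.natAbs : ℕ) : ℤ)) = Int.ofNat (d * y.natAbs) :=
      (Int.natCast_mul d y.natAbs).symm
    rw [this]
    show Int.ofNat (d * y.natAbs / d) = _
    rw [Nat.mul_div_cancel_left _ hd]
    rfl
  · rcases Nat.eq_zero_or_pos y.natAbs with h0 | h0
    · have hy : y = 0 := Int.natAbs_eq_zero.1 h0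
      subst hy
      rw [mul_zero]
      show Int.ofNat (0 / d) = 0
      rw [Nat.zero_div]; rfl
    · have h1 : 0 < d * y.natAbs := Nat.mul_pos hd h0
      obtain ⟨n, hn⟩ : ∃ n, d * y.natAbs = n + 1 := ⟨d * y.natAbs - 1, by omega⟩
      have h2 : ((d : ℤ) * y) = Int.negSucc n := by
        rw [Int.negSucc_eq, h]
        have : (d : ℤ) * ((y.natAbs : ℕ) : ℤ) = (n : ℤ) + 1 := by exact_mod_cast hn
        linarith
      rw [h2]
      show Int.neg (Int.ofNat ((n + 1) / d)) = y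
      rw [← hn, Nat.mul_div_cancel_left _ hd]
      exact h.symm

/-- the integer vector with given coordinates -/
theorem cand_spec {E : K.Ed} {K₀ X Y Z m : ℕ} {f : K.I4 → Bool} (h : K.cand E K₀ X Y Z m f = true)
    (hDe : 0 < E.De) (r : K.I4)
    (hr : (E.De : ℤ) • vI r = (m : ℤ) • vI E.V -
      (((E.A11 * X + E.A12 * Y + E.A13 * Z : ℕ) : ℤ) • vI E.a +
        ((E.A12 * X + E.A22 * Y + E.A23 * Z : ℕ) : ℤ) • vI E.b +
        ((E.A13 * X + E.A23 * Y + E.A33 * Z : ℕ) : ℤ) • vI E.c))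
    (hroot : K.rootI E.A K₀ r = true) : f r = true := by
  unfold K.cand at h
  simp only [fc_eq] at h
  have hx := congrFun hr 0
  have hy := congrFun hr 1
  have hz := congrFun hr 2
  have hw := congrFun hr 3
  simp only [vI, Pi.smul_apply, Pi.sub_apply, Pi.add_apply, smul_eq_mul, Matrix.cons_val] at hx hy hz hw
  have ex : K.num1 m (Nat.add (Nat.add (Nat.mul E.A11 X) (Nat.mul E.A12 Y)) (Nat.mul E.A13 Z))
      (Nat.add (Nat.add (Nat.mul E.A12 X) (Nat.mul E.A22 Y)) (Nat.mul E.A23 Z))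
      (Nat.add (Nat.add (Nat.mul E.A13 X) (Nat.mul E.A23 Y)) (Nat.mul E.A33 Z))
      E.a.x E.b.x E.c.x E.V.x = E.De * r.x := hx.symm
  have ey : K.num1 m (Nat.add (Nat.add (Nat.mul E.A11 X) (Nat.mul E.A12 Y)) (Nat.mul E.A13 Z))
      (Nat.add (Nat.add (Nat.mul E.A12 X) (Nat.mul E.A22 Y)) (Nat.mul E.A23 Z))
      (Nat.add (Nat.add (Nat.mul E.A13 X) (Nat.mul E.A23 Y)) (Nat.mul E.A33 Z))
      E.a.y E.b.y E.c.y E.V.y = E.De * r.y := hy.symm
  have ez : K.num1 m (Nat.add (Nat.add (Nat.mul E.A11 X) (Nat.mul E.A12 Y)) (Nat.mul E.A13 Z))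
      (Nat.add (Nat.add (Nat.mul E.A12 X) (Nat.mul E.A22 Y)) (Nat.mul E.A23 Z))
      (Nat.add (Nat.add (Nat.mul E.A13 X) (Nat.mul E.A23 Y)) (Nat.mul E.A33 Z))
      E.a.z E.b.z E.c.z E.V.z = E.De * r.z := hz.symm
  have ew : K.num1 m (Nat.add (Nat.add (Nat.mul E.A11 X) (Nat.mul E.A12 Y)) (Nat.mul E.A13 Z))
      (Nat.add (Nat.add (Nat.mul E.A12 X) (Nat.mul E.A22 Y)) (Nat.mul E.A23 Z))
      (Nat.add (Nat.add (Nat.mul E.A13 X) (Nat.mul E.A23 Y)) (Nat.mul E.A33 Z))
      E.a.w E.b.w E.c.w E.V.w = E.De * r.w := hw.symm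
  rw [ex, ey, ez, ew, divI_eq hDe, divI_eq hDe, divI_eq hDe, divI_eq hDe, rec_bool, if_pos] at h
  · rw [rec_bool, if_pos hroot] at h
    exact h
  · rw [ands_iff, ands_iff, ands_iff, dvdI_iff, dvdI_iff, dvdI_iff, dvdI_iff]
    exact ⟨⟨dvd_mul_right _ _, dvd_mul_right _ _⟩, ⟨dvd_mul_right _ _, dvd_mul_right _ _⟩⟩

theorem blt_iff {a b : ℤ} : Int.blt' a b = true ↔ a < b := by
  rw [Int.blt'_eq_true]

theorem anyPos_spec {A : K.I10} {r : K.I4} {l : List K.I4} (h : K.anyPos A r l = true) :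
    ∃ g ∈ l, K.eqI g r = false ∧ 0 < K.dotI (K.mulI A r) g := by
  unfold K.anyPos at h
  induction l with
  | nil => exact absurd h (by simp)
  | cons g l ih =>
    have h' : (Bool.rec
        (List.rec false (fun f _ ih => Bool.rec ih
          (K.notb (K.eqI f r)) (Int.blt' 0 (K.dotI (K.mulI A r) f))) l : Bool)
        (K.notb (K.eqI g r)) (Int.blt' 0 (K.dotI (K.mulI A r) g)) : Bool) = true := h
    rw [rec_bool] at h'
    split_ifs at h' with h1
    · rw [blt_iff] at h1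
      refine ⟨g, List.mem_cons_self, ?_, h1⟩
      cases h2 : K.eqI g r
      · rfl
      · rw [h2] at h'; exact absurd h' (by simp [K.notb])
    · obtain ⟨g', h2, h3⟩ := ih h'
      exact ⟨g', List.mem_cons_of_mem _ h2, h3⟩

end Pool.Agent.Refl.H91
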