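import Pool.Agent.Helper91_Refl.FarL
import Pool.Agent.Helper91_Refl.FarK

/-!
REFL, module LOC: local conditions for the norms.
-/

namespace Pool.Agent.Refl.H91

open Matrix

theorem dvd_step {d p a m : ℕ} (hp : p.Prime) (hd : d ∣ p ^ (a + 1) * m)
    (hc : Nat.Coprime p m) (hn : ¬ p ^ (a + 1) ∣ d) : d ∣ p ^ a * m := by
  have h1 : Nat.gcd d (p ^ (a + 1) * m) = Nat.gcd d (p ^ (a + 1)) * Nat.gcd d m :=
    Nat.Coprime.gcd_mul d (hc.pow_left _)
  rw [Nat.gcd_eq_left hd] at h1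
  rw [h1]
  apply Nat.mul_dvd_mul _ (Nat.gcd_dvd_right d m)
  obtain ⟨j, hj, hj'⟩ := (Nat.dvd_prime_pow hp).1 (Nat.gcd_dvd_right d (p ^ (a + 1)))
  rw [hj']
  apply pow_dvd_pow
  by_contra h2
  have h3 : j = a + 1 := by omega
  apply hn
  rw [← h3, ← hj']
  exact Nat.gcd_dvd_left _ _

theorem okk_of {k : ℕ} (h2 : ¬ 2 ^ 3 ∣ k) (h3 : ¬ 3 ^ 2 ∣ k) (h5 : ¬ 5 ^ 2 ∣ k)
    (h7 : ¬ 7 ^ 2 ∣ k) : K.okk k = true := by
  have hd : Nat.gcd k 88200 ∣ 88200 := Nat.gcd_dvd_right _ _
  have hk : Nat.gcd k 88200 ∣ k := Nat.gcd_dvd_left _ _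
  have h4 : Nat.gcd k 88200 ∣ 420 := by
    have a1 : Nat.gcd k 88200 ∣ 2 ^ (2 + 1) * 11025 := hd
    have a2 := dvd_step Nat.prime_two a1 (by norm_num) (fun h => h2 (h.trans hk))
    have a3 : Nat.gcd k 88200 ∣ 3 ^ (1 + 1) * 4900 := a2
    have a4 := dvd_step Nat.prime_three a3 (by norm_num) (fun h => h3 (h.trans hk))
    have a5 : Nat.gcd k 88200 ∣ 5 ^ (1 + 1) * 588 := a4
    have a6 := dvd_step Nat.prime_five a5 (by norm_num) (fun h => h5 (h.trans hk))
    have a7 : Nat.gcd k 88200 ∣ 7 ^ (1 + 1) * 60 := a6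
    have a8 := dvd_step Nat.prime_seven a7 (by norm_num) (fun h => h7 (h.trans hk))
    exact a8
  unfold K.okk
  rw [beq_iff]
  exact Nat.mod_eq_zero_of_dvd h4

/-- integral coordinates -/
theorem exists_F {G : M4} (hG : G.transpose = G) (e : Fin 4 → Z4) (he : ∀ i, IsRoot G (e i)) :
    ∃ F : M4, (∀ i x, bz G (e i) (e i) * F.mulVec x i = 2 * bz G x (e i)) ∧
      (∏ i, bz G (e i) (e i)) * F.det = 16 * ((Matrix.of e).det * G.det) := by
  have h1 : ∀ i j, ∃ y, 2 * G.mulVec (e i) j = bz G (e i) (e i) * y := by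
    intro i j
    have := (he i).dvd (Pi.single j 1)
    rw [bz_eq G (Pi.single j 1), single_one_dotProduct] at this
    exact this
  choose F hF using h1
  refine ⟨Matrix.of F, ?_, ?_⟩
  · intro i x
    have e1 : (Matrix.of F).mulVec x i = ∑ j, F i j * x j := rfl
    have e2 : bz G x (e i) = ∑ j, x j * G.mulVec (e i) j := bz_eq G x (e i)
    rw [e1, e2, Finset.mul_sum, Finset.mul_sum]
    apply Finset.sum_congr rfl
    intro j _
    rw [← mul_assoc, ← hF]; ring
  · have h2 : Matrix.diagonal (fun i => bz G (e i) (e i)) * (Matrix.of F) =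
        (2 : ℤ) • (Matrix.of e * G) := by
      ext i j
      rw [Matrix.diagonal_mul, Matrix.smul_apply, Matrix.mul_apply, smul_eq_mul, Matrix.of_apply,
        ← hF]
      congr 1
      rw [Matrix.mulVec, dotProduct]
      apply Finset.sum_congr rfl
      intro k _
      have : G k j = G j k := congrFun (congrFun hG j) k
      rw [Matrix.of_apply, this]; ring
    have h3 := congrArg Matrix.det h2
    rw [Matrix.det_mul, Matrix.det_diagonal, Matrix.det_smul, Matrix.det_mul, Fintype.card_fin] at h3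
    rw [h3]; norm_num

/-- invertible matrices modulo `p` -/
theorem dvd_of_mulVec {p : ℤ} (hp : Prime p) {F : M4} (hF : ¬ p ∣ F.det) {x : Z4}
    (h : ∀ i, p ∣ F.mulVec x i) : ∀ i, p ∣ x i := by
  intro i
  have h1 : F.adjugate.mulVec (F.mulVec x) = F.det • x := by
    rw [Matrix.mulVec_mulVec, Matrix.adjugate_mul, Matrix.smul_mulVec, Matrix.one_mulVec]
  have h2 : p ∣ F.det * x i := by
    have h3 := congrFun h1 i
    rw [Pi.smul_apply, smul_eq_mul] at h3
    rw [← h3, Matrix.mulVec, dotProduct]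
    exact Finset.dvd_sum fun j _ => (h j).mul_left _
  exact (hp.dvd_or_dvd h2).resolve_left hF

/-- three independent vectors in the kernel modulo `p` -/
theorem not_rk2 {p : ℕ} (hp : Prime (p : ℤ)) {G : M4} {e : Fin 4 → Z4}
    (he : ¬ (p : ℤ) ∣ (Matrix.of e).det) (m : Fin 4)
    (h : ∀ a, a ≠ m → ∀ x, (p : ℤ) ∣ G.mulVec (e a) x) : ¬ Rk2 p G := by
  rintro ⟨i, j, k, l, h1⟩
  apply h1
  set E : M4 := Matrix.of e with hE
  have h2 : (G * E.transpose) * E.transpose.adjugate = E.det • G := by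
    rw [Matrix.mul_assoc, Matrix.mul_adjugate, Matrix.det_transpose, Matrix.mul_smul,
      Matrix.mul_one]
  have h3 : ∀ x y, (p : ℤ) ∣ E.det * G x y -
      (G * E.transpose) x m * E.transpose.adjugate m y := by
    intro x y
    have h4 := congrFun (congrFun h2 x) y
    rw [Matrix.smul_apply, smul_eq_mul, Matrix.mul_apply] at h4
    rw [← h4, ← Finset.add_sum_erase _ _ (Finset.mem_univ m), add_sub_cancel_left]
    apply Finset.dvd_sum
    intro a ha
    apply Dvd.dvd.mul_right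
    have h5 : (G * E.transpose) x a = G.mulVec (e a) x := rfl
    rw [h5]
    exact h a (Finset.ne_of_mem_erase ha) x
  have h6 : (p : ℤ) ∣ E.det ^ 2 * (G i k * G j l - G i l * G j k) := by
    obtain ⟨a1, e1⟩ := h3 i k
    obtain ⟨a2, e2⟩ := h3 j l
    obtain ⟨a3, e3⟩ := h3 i l
    obtain ⟨a4, e4⟩ := h3 j k
    have f1 : E.det * G i k = (G * E.transpose) i m * E.transpose.adjugate m k + p * a1 := by
      linarith
    have f2 : E.det * G j l = (G * E.transpose) j m * E.transpose.adjugate m l + p * a2 := by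
      linarith
    have f3 : E.det * G i l = (G * E.transpose) i m * E.transpose.adjugate m l + p * a3 := by
      linarith
    have f4 : E.det * G j k = (G * E.transpose) j m * E.transpose.adjugate m k + p * a4 := by
      linarith
    have : E.det ^ 2 * (G i k * G j l - G i l * G j k) =
        (E.det * G i k) * (E.det * G j l) - (E.det * G i l) * (E.det * G j k) := by ring
    rw [this, f1, f2, f3, f4]
    generalize (G * E.transpose) i m = u1
    generalize (G * E.transpose) j m = u2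
    generalize E.transpose.adjugate m k = u3
    generalize E.transpose.adjugate m l = u4
    refine ⟨a1 * (u2 * u4 + p * a2) + u1 * u3 * a2 - a3 * (u2 * u3 + p * a4) - u1 * u4 * a4, ?_⟩
    ring
  rcases hp.dvd_or_dvd h6 with h7 | h7
  · exact absurd (hp.dvd_of_dvd_pow h7) he
  · exact h7

theorem not_prim {p : ℤ} (hp : Prime p) {G : M4} {e : Fin 4 → Z4}
    (he : ¬ p ∣ (Matrix.of e).det) (h : ∀ a x, p ∣ G.mulVec (e a) x) : ¬ PrimG G := by
  intro h1
  apply hp.not_isUnit
  apply h1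
  intro i j
  set E : M4 := Matrix.of e with hE
  have h2 : (G * E.transpose) * E.transpose.adjugate = E.det • G := by
    rw [Matrix.mul_assoc, Matrix.mul_adjugate, Matrix.det_transpose, Matrix.mul_smul,
      Matrix.mul_one]
  have h4 := congrFun (congrFun h2 i) j
  rw [Matrix.smul_apply, smul_eq_mul, Matrix.mul_apply] at h4
  have h5 : p ∣ E.det * G i j := by
    rw [← h4]
    apply Finset.dvd_sum
    intro a _
    apply Dvd.dvd.mul_right
    exact h a i
  exact (hp.dvd_or_dvd h5).resolve_left he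

/-- LOC -/
theorem loc (hDet : DetIdStmt) : LocStmt := by
  intro T G e' k s t hT hs ht hk hgcd
  have hG := hT.lat.symm
  obtain ⟨hprim, hred, hred'⟩ := hT.red
  -- the four roots
  set e : Fin 4 → Z4 := fun i => e' (Fin.castLE (by norm_num) i) with he
  have hroot : ∀ i, IsRoot G (e i) := fun i => hT.root _
  have hobt : ∀ i j, i ≠ j → bz G (e i) (e j) ≤ 0 := by
    intro i j hij
    apply hT.obt
    · simp
    · simp only [Fin.val_castLE]; omega
    · intro h
      exact hij (Fin.castLE_injective _ h)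
  have hK : ∀ i, s * bz G (e i) (e i) = t * k i := hk
  have hDD := hDet G e hT.lat hroot hobt
  have hD0 : (T.D0 : ℤ) = dd0 (nn G (e 0) (e 1)) (nn G (e 0) (e 2)) (nn G (e 1) (e 2))
      (nn G (e 0) (e 3)) (nn G (e 1) (e 3)) (nn G (e 2) (e 3)) := by
    rw [hT.D0, hT.n01, hT.n02, hT.n12, hT.n03, hT.n13, hT.n23]
    rfl
  rw [← hD0] at hDD
  obtain ⟨F, hF, hFdet⟩ := exists_F hG e hroot
  have hd4 : d4 (e 0) (e 1) (e 2) (e 3) = (Matrix.of e).det := by
    unfold d4
    congr 1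
    ext i j
    fin_cases i <;> rfl
  have hprod : (∏ i, bz G (e i) (e i)) =
      bz G (e 0) (e 0) * bz G (e 1) (e 1) * bz G (e 2) (e 2) * bz G (e 3) (e 3) :=
    Fin.prod_univ_four _
  have hFd : F.det * (Matrix.of e).det = -(T.D0 : ℤ) := by
    have hpos : (∏ i, bz G (e i) (e i)) ≠ 0 := Finset.prod_ne_zero_iff.2 fun i _ =>
      (hroot i).pos.ne'
    apply mul_left_cancel₀ hpos
    rw [hd4, ← hprod] at hDD
    linear_combination (Matrix.of e).det * hFdet + hDD
  -- the common factor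
  obtain ⟨g, hg0, hg⟩ : ∃ g : ℤ, 0 < g ∧ ∀ i, bz G (e i) (e i) = g * k i := by
    have h1 : ∃ c : Fin 4 → ℤ, ∑ i, c i * (k i : ℤ) = 1 := by
      have b1 := Nat.gcd_eq_gcd_ab (k 0) (k 1)
      have b2 := Nat.gcd_eq_gcd_ab (k 2) (k 3)
      have b3 := Nat.gcd_eq_gcd_ab (Nat.gcd (k 0) (k 1)) (Nat.gcd (k 2) (k 3))
      rw [hgcd] at b3
      refine ⟨![Nat.gcdA (k 0) (k 1) * Nat.gcdA (Nat.gcd (k 0) (k 1)) (Nat.gcd (k 2) (k 3)),
        Nat.gcdB (k 0) (k 1) * Nat.gcdA (Nat.gcd (k 0) (k 1)) (Nat.gcd (k 2) (k 3)),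
        Nat.gcdA (k 2) (k 3) * Nat.gcdB (Nat.gcd (k 0) (k 1)) (Nat.gcd (k 2) (k 3)),
        Nat.gcdB (k 2) (k 3) * Nat.gcdB (Nat.gcd (k 0) (k 1)) (Nat.gcd (k 2) (k 3))], ?_⟩
      rw [Fin.sum_univ_four]
      simp only [Matrix.cons_val]
      push_cast at b3
      linear_combination -b3 -
        (Nat.gcdA (Nat.gcd (k 0) (k 1)) (Nat.gcd (k 2) (k 3))) * b1 -
        (Nat.gcdB (Nat.gcd (k 0) (k 1)) (Nat.gcd (k 2) (k 3))) * b2
    obtain ⟨c, hc⟩ := h1
    have h2 : t = s * ∑ i, c i * bz G (e i) (e i) := by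
      calc t = t * ∑ i, c i * (k i : ℤ) := by rw [hc, mul_one]
        _ = ∑ i, c i * (t * k i) := by
          rw [Finset.mul_sum]; apply Finset.sum_congr rfl; intro i _; ring
        _ = ∑ i, c i * (s * bz G (e i) (e i)) := by simp only [hK]
        _ = _ := by
          rw [Finset.mul_sum]; apply Finset.sum_congr rfl; intro i _; ring
    refine ⟨∑ i, c i * bz G (e i) (e i), ?_, ?_⟩
    · by_contra h3
      push Not at h3
      have := mul_nonpos_of_nonneg_of_nonpos hs.le h3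
      linarith
    · intro i
      apply mul_left_cancel₀ hs.ne'
      rw [hK i]
      conv_lhs => rw [h2]
      ring
  -- products with a root
  have hmv : ∀ i x, 2 * G.mulVec (e i) x = bz G (e i) (e i) * F.mulVec (Pi.single x 1) i := by
    intro i x
    rw [hF, bz_eq G (Pi.single x 1), single_one_dotProduct]
  have hunit : ∀ p : ℕ, p.Prime → ∃ j, ¬ p ∣ k j := by
    intro p hp
    by_contra h1
    push Not at h1
    have : p ∣ 1 := by
      rw [← hgcd]
      exact Nat.dvd_gcd (Nat.dvd_gcd (h1 0) (h1 1)) (Nat.dvd_gcd (h1 2) (h1 3))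
    exact hp.one_lt.ne' (Nat.dvd_one.1 this)
  have hnd : ∀ p : ℕ, p.Prime → ¬ p ∣ T.D0 → ¬ (p : ℤ) ∣ F.det ∧ ¬ (p : ℤ) ∣ (Matrix.of e).det := by
    intro p hp h1
    constructor
    · intro h2
      apply h1
      have : (p : ℤ) ∣ -(T.D0 : ℤ) := by rw [← hFd]; exact h2.mul_right _
      rw [dvd_neg] at this
      exact_mod_cast this
    · intro h2
      apply h1
      have : (p : ℤ) ∣ -(T.D0 : ℤ) := by rw [← hFd]; exact h2.mul_left _
      rw [dvd_neg] at this
      exact_mod_cast this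
  -- `g` is even if `D0` is odd
  have heven : ¬ 2 ∣ T.D0 → (2 : ℤ) ∣ g := by
    intro h1
    by_contra h2
    obtain ⟨j, hj⟩ := hunit 2 Nat.prime_two
    have hp : Prime (2 : ℤ) := Int.prime_two
    have hKj : ¬ (2 : ℤ) ∣ bz G (e j) (e j) := by
      rw [hg]
      intro h3
      rcases hp.dvd_or_dvd h3 with h4 | h4
      · exact h2 h4
      · exact hj (by exact_mod_cast h4)
    have hrow : ∀ x, (2 : ℤ) ∣ F j x := by
      intro x
      have h3 := hmv j x
      have h4 : (2 : ℤ) ∣ bz G (e j) (e j) * F.mulVec (Pi.single x 1) j := ⟨_, h3.symm⟩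
      have h5 := (hp.dvd_or_dvd h4).resolve_left hKj
      rw [Matrix.mulVec_single_one] at h5
      exact h5
    apply (hnd 2 Nat.prime_two h1).1
    rw [Matrix.det_succ_row F j]
    apply Finset.dvd_sum
    intro x _
    apply Dvd.dvd.mul_right
    exact (hrow x).mul_left _
  -- `SSF p` and norms
  have hsq : ∀ p : ℕ, p.Prime → p ∈ [2, 3, 5, 7] → ∀ i, ¬ ∀ x, (p : ℤ) ^ 2 ∣ G.mulVec (e i) x := by
    intro p hp hp' i h1
    have h2 := (hred p hp').1 (e i) h1
    have h3 := (hroot i).prim p h2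
    exact (Nat.prime_iff_prime_int.1 hp).not_isUnit h3
  have h8 : ∀ i, ¬ (8 : ℤ) ∣ bz G (e i) (e i) := by
    intro i h1
    apply hsq 2 Nat.prime_two (by simp) i
    intro x
    have h2 := hmv i x
    have h3 : (8 : ℤ) ∣ 2 * G.mulVec (e i) x := by rw [h2]; exact h1.mul_right _
    obtain ⟨y, hy⟩ := h3
    exact ⟨y, by push_cast; linarith⟩
  have hodd : ∀ p : ℕ, p.Prime → p ∈ [3, 5, 7] → ∀ i, ¬ (p : ℤ) ^ 2 ∣ bz G (e i) (e i) := by
    intro p hp hp' i h1
    apply hsq p hp (by simp at hp' ⊢; tauto) i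
    intro x
    have h2 := hmv i x
    have h3 : (p : ℤ) ^ 2 ∣ 2 * G.mulVec (e i) x := by rw [h2]; exact h1.mul_right _
    apply IsCoprime.dvd_of_dvd_mul_left _ h3
    apply IsCoprime.pow_left
    have hp2 : p ≠ 2 := by rintro rfl; simp at hp'
    rw [show (2 : ℤ) = ((2 : ℕ) : ℤ) by norm_num, Nat.isCoprime_iff_coprime,
      Nat.coprime_primes hp Nat.prime_two]
    exact hp2
  have hk8 : ∀ i, ¬ 2 ^ 3 ∣ k i := by
    intro i h1
    apply h8 i
    rw [hg]
    have h2 : ((2 ^ 3 : ℕ) : ℤ) ∣ (k i : ℤ) := by exact_mod_cast h1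
    exact Dvd.dvd.mul_left (by exact_mod_cast h2) _
  have hkodd : ∀ p : ℕ, p.Prime → p ∈ [3, 5, 7] → ∀ i, ¬ p ^ 2 ∣ k i := by
    intro p hp hp' i h1
    apply hodd p hp hp' i
    rw [hg]
    have h2 : ((p ^ 2 : ℕ) : ℤ) ∣ (k i : ℤ) := by exact_mod_cast h1
    push_cast at h2
    exact h2.mul_left _
  have hp2 : ∀ p : ℕ, p.Prime → p ≠ 2 → ¬ (p : ℤ) ∣ 2 := by
    intro p hp h1 h2
    have h3 : p ∣ 2 := by exact_mod_cast h2
    exact h1 ((Nat.prime_dvd_prime_iff_eq hp Nat.prime_two).1 h3)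
  have hker : ∀ p : ℕ, p.Prime → ¬ p ∣ T.D0 → ∀ a, p ∣ k a → ∀ x,
      (p : ℤ) ∣ G.mulVec (e a) x := by
    intro p hp hD a ha x
    have h1 := hmv a x
    have ha' : (p : ℤ) ∣ (k a : ℤ) := by exact_mod_cast ha
    by_cases h2 : p = 2
    · subst h2
      have h3 : (2 : ℤ) * 2 ∣ 2 * G.mulVec (e a) x := by
        rw [h1, hg]
        exact (mul_dvd_mul (heven hD) ha').mul_right _
      exact Int.dvd_of_mul_dvd_mul_left (by norm_num) h3
    · have h3 : (p : ℤ) ∣ 2 * G.mulVec (e a) x := by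
        rw [h1, hg]
        exact (ha'.mul_left _).mul_right _
      exact ((Nat.prime_iff_prime_int.1 hp).dvd_or_dvd h3).resolve_left (hp2 p hp h2)
  refine ⟨?_, ?_, ?_⟩
  · intro i
    refine ⟨okk_of (hk8 i) (hkodd 3 Nat.prime_three (by simp) i)
      (hkodd 5 Nat.prime_five (by simp) i) (hkodd 7 Nat.prime_seven (by simp) i), ?_⟩
    rcases hT.M4 with h1 | ⟨h1, h2⟩
    · rw [h1]
      intro h3
      exact hk8 i (Dvd.dvd.trans (by norm_num) h3)
    · rw [h1]
      intro h3
      apply h8 i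
      rw [hg]
      have h4 : ((4 : ℕ) : ℤ) ∣ (k i : ℤ) := by exact_mod_cast h3
      have h5 := mul_dvd_mul (heven h2) h4
      norm_num at h5
      exact h5
  · intro p hp hp' hD i j l hij hjl hil h1
    have h2 : ∀ i j l : Fin 4, i ≠ j → j ≠ l → i ≠ l →
        ∃ m, ∀ a, a ≠ m → a = i ∨ a = j ∨ a = l := by decide
    obtain ⟨m, hm⟩ := h2 i j l hij hjl hil
    refine not_rk2 (Nat.prime_iff_prime_int.1 hp) (hnd p hp hD).2 m ?_ (hred p hp').2
    intro a ha x
    apply hker p hp hD a _ x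
    rcases hm a ha with rfl | rfl | rfl
    · exact h1.1
    · exact h1.2.1
    · exact h1.2.2
  · intro p hp h7 hD i h1
    obtain ⟨h1, h2⟩ := h1
    have hpi : Prime (p : ℤ) := Nat.prime_iff_prime_int.1 hp
    refine not_rk2 hpi (hnd p hp hD).2 i (fun a ha x => hker p hp hD a (h2 a ha).1 x)
      (hred' p hp h7 ?_)
    intro x hx
    apply dvd_of_mulVec hpi (hnd p hp hD).1
    have hpg : ¬ (p : ℤ) ∣ g := by
      intro h3
      refine not_prim hpi (hnd p hp hD).2 ?_ hprim
      intro a y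
      have h4 := hmv a y
      have h5 : (p : ℤ) ∣ 2 * G.mulVec (e a) y := by
        rw [h4, hg]; exact (h3.mul_right _).mul_right _
      exact (hpi.dvd_or_dvd h5).resolve_left (hp2 p hp (by omega))
    intro a
    have h3 : (p : ℤ) ^ 2 ∣ g * k a * F.mulVec x a := by
      rw [← hg, hF, bz_comm hG, bz_eq, dotProduct]
      apply Dvd.dvd.mul_left
      exact Finset.dvd_sum fun y _ => (hx y).mul_left _
    by_cases ha : a = i
    · subst ha
      have h4 : (p : ℤ) ∣ g * k a * F.mulVec x a := (dvd_pow_self _ two_ne_zero).trans h3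
      rcases hpi.dvd_or_dvd h4 with h5 | h5
      · rcases hpi.dvd_or_dvd h5 with h6 | h6
        · exact absurd h6 hpg
        · exact absurd (by exact_mod_cast h6) h1
      · exact h5
    · obtain ⟨⟨q, hq⟩, h5⟩ := h2 a ha
      have hpq : ¬ (p : ℤ) ∣ (q : ℤ) := by
        intro h6
        apply h5
        have h7' : p ∣ q := by exact_mod_cast h6
        rw [hq, sq]
        exact mul_dvd_mul_left _ h7'
      have h6 : (p : ℤ) * p ∣ p * (g * q * F.mulVec x a) := by
        rw [hq] at h3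
        push_cast at h3
        rw [sq] at h3
        have e1 : (p : ℤ) * (g * q * F.mulVec x a) = g * (p * q) * F.mulVec x a := by ring
        rw [e1]; exact h3
      have h7' := Int.dvd_of_mul_dvd_mul_left (by exact_mod_cast hp.ne_zero) h6
      rcases hpi.dvd_or_dvd h7' with h8' | h8'
      · rcases hpi.dvd_or_dvd h8' with h9 | h9
        · exact absurd h9 hpg
        · exact absurd h9 hpq
      · exact h8'

end Pool.Agent.Refl.H91
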